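import Pool.Agent.Lib.ALLO.Defs
import Pool.Agent.Lib.ALLZO.Loc
import Mathlib.LinearAlgebra.Matrix.Determinant.Basic
import Mathlib.LinearAlgebra.Matrix.Adjugate
import Mathlib.RingTheory.Ideal.Quotient.Basic

/-!
# Change of the monomials and of the free parameters of a frame
-/

set_option autoImplicit false

namespace Pool.Agent.TGL

open Pool.Agent.TAO (OVal VPos val_add_vpos Ctx0)
open Pool.Agent.ALLO (locv FR)
open Pool.Agent.ALLZO (le_locv locv_mono locv_le locv_adjoin_le)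

universe u w

variable {k Ω : Type u} [Field k] [Field Ω] [Algebra k Ω]
  {𝕂 : Type w} [Field 𝕂] [LinearOrder 𝕂] [IsStrictOrderedRing 𝕂] {v : OVal 𝕂 Ω} {D : ℕ}

theorem Un.inv {B : FR k v D} {f : Ω} (h : B.Un f) : B.Un f⁻¹ :=
  ⟨B.loc f h.1 h.2.1 h.2.2, inv_ne_zero h.2.1, by rw [v.map_inv h.2.1, h.2.2, neg_zero]⟩

theorem Un.mul {B : FR k v D} {f g : Ω} (hf : B.Un f) (hg : B.Un g) : B.Un (f * g) :=
  ⟨B.R.mul_mem hf.1 hg.1, mul_ne_zero hf.2.1 hg.2.1, by
    rw [v.map_mul hf.2.1 hg.2.1, hf.2.2, hg.2.2, add_zero]⟩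

/-- Change of the monomials by units. -/
theorem chChi (B : FR k v D) (χ' : 𝕂 → Ω) (hne : ∀ γ ∈ B.Γ, χ' γ ≠ 0)
    (hadd : ∀ γ ∈ B.Γ, ∀ δ ∈ B.Γ, χ' (γ + δ) = χ' γ * χ' δ)
    (hun : ∀ γ ∈ B.Γ, B.Un (B.χ γ / χ' γ)) :
    ∃ B' : FR k v D, B'.R = B.R ∧ B'.Γ = B.Γ ∧ B'.χ = χ' ∧ B'.y = B.y := by
  classical
  obtain ⟨F₀, hF₀⟩ := B.fgen
  obtain ⟨S, hS⟩ := B.fg
  set ε : 𝕂 → Ω := fun γ => B.χ γ / χ' γ with hε
  have hχ : ∀ γ ∈ B.Γ, B.χ γ = χ' γ * ε γ := by
    intro γ hγ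
    simp only [hε]
    rw [mul_div_cancel₀ _ (hne γ hγ)]
  have hχ' : ∀ γ ∈ B.Γ, χ' γ = B.χ γ * (ε γ)⁻¹ := by
    intro γ hγ
    rw [hχ γ hγ, mul_inv_cancel_right₀ (hun γ hγ).2.1]
  have hεadd : ∀ γ ∈ B.Γ, ∀ δ ∈ B.Γ, ε (γ + δ) = ε γ * ε δ := by
    intro γ hγ δ hδ
    simp only [hε]
    rw [B.χ_add γ hγ δ hδ, hadd γ hγ δ hδ, mul_div_mul_comm]
  have hε0 : ε 0 = 1 := by
    have h1 := hεadd 0 B.Γ.zero_mem 0 B.Γ.zero_mem
    rw [add_zero] at h1
    exact (mul_right_cancel₀ (hun 0 B.Γ.zero_mem).2.1 (by rw [one_mul]; exact h1)).symm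
  have hεn : ∀ δ ∈ B.Γ, ε (-δ) = (ε δ)⁻¹ := by
    intro δ hδ
    have h2 := hεadd δ hδ (-δ) (B.Γ.neg_mem hδ)
    rw [add_neg_cancel, hε0] at h2
    exact eq_inv_of_mul_eq_one_right h2.symm
  let T : Finset Ω := F₀ ∪ (S.image ε ∪ S.image fun γ => (ε γ)⁻¹)
  set R' : Subalgebra k Ω := locv v (Algebra.adjoin k ((T : Set Ω) ∪ χ' '' {γ | γ ∈ B.Γ ∧ 0 ≤ γ}))
    with hR'
  have hTR' : ∀ t ∈ T, t ∈ R' := fun t ht =>
    le_locv _ (Algebra.subset_adjoin (Or.inl (Finset.mem_coe.2 ht)))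
  have hχR' : ∀ γ ∈ B.Γ, 0 ≤ γ → χ' γ ∈ R' := fun γ hγ h0 =>
    le_locv _ (Algebra.subset_adjoin (Or.inr ⟨γ, ⟨hγ, h0⟩, rfl⟩))
  have hεR' : ∀ γ ∈ B.Γ, ε γ ∈ R' ∧ ε (-γ) ∈ R' := by
    intro γ hγ
    have h1 : γ ∈ AddSubgroup.closure (S : Set 𝕂) := by rw [hS]; exact hγ
    have key : ∀ γ ∈ AddSubgroup.closure (S : Set 𝕂), ε γ ∈ R' ∧ ε (-γ) ∈ R' := by
      intro γ hγ
      induction hγ using AddSubgroup.closure_induction with
      | mem x hx =>
        have hxΓ : x ∈ B.Γ := by rw [← hS]; exact AddSubgroup.subset_closure hx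
        have hx' : x ∈ S := hx
        refine ⟨hTR' _ ?_, ?_⟩
        · exact Finset.mem_union_right _ (Finset.mem_union_left _ (Finset.mem_image_of_mem _ hx'))
        · rw [hεn x hxΓ]
          exact hTR' _ (Finset.mem_union_right _ (Finset.mem_union_right _
            (Finset.mem_image_of_mem (fun γ => (ε γ)⁻¹) hx')))
      | zero =>
        rw [neg_zero, hε0]
        exact ⟨R'.one_mem, R'.one_mem⟩
      | add x y hx hy hx' hy' =>
        have hxΓ : x ∈ B.Γ := by rw [← hS]; exact hx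
        have hyΓ : y ∈ B.Γ := by rw [← hS]; exact hy
        rw [hεadd x hxΓ y hyΓ, neg_add, hεadd _ (B.Γ.neg_mem hxΓ) _ (B.Γ.neg_mem hyΓ)]
        exact ⟨R'.mul_mem hx'.1 hy'.1, R'.mul_mem hx'.2 hy'.2⟩
      | neg x _ hx =>
        rw [neg_neg]
        exact ⟨hx.2, hx.1⟩
    exact key γ h1
  have hmem' : ∀ γ ∈ B.Γ, 0 ≤ γ → χ' γ ∈ B.R := fun γ hγ h0 => by
    rw [hχ' γ hγ]
    exact B.R.mul_mem (B.χ_mem γ hγ h0) (Un.inv (hun γ hγ)).1
  have hBR' : B.R = R' := by
    apply le_antisymm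
    · rw [hF₀]
      refine locv_adjoin_le ?_
      rintro f (hf | ⟨γ, ⟨hγ, h0⟩, rfl⟩)
      · exact hTR' _ (Finset.mem_union_left _ hf)
      · rw [hχ γ hγ]
        exact R'.mul_mem (hχR' γ hγ h0) (hεR' γ hγ).1
    · refine locv_le (Algebra.adjoin_le ?_) B.loc
      rintro f (hf | ⟨γ, ⟨hγ, h0⟩, rfl⟩)
      · rcases Finset.mem_union.1 (Finset.mem_coe.1 hf) with hf | hf
        · rw [hF₀]
          exact le_locv _ (Algebra.subset_adjoin (Or.inl hf))
        · rcases Finset.mem_union.1 hf with hf | hf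
          · obtain ⟨γ, hγ, rfl⟩ := Finset.mem_image.1 hf
            exact (hun γ (by rw [← hS]; exact AddSubgroup.subset_closure hγ)).1
          · obtain ⟨γ, hγ, rfl⟩ := Finset.mem_image.1 hf
            exact (Un.inv (hun γ (by rw [← hS]; exact AddSubgroup.subset_closure hγ))).1
      · exact hmem' γ hγ h0
  refine ⟨{ Γ := B.Γ
            fg := B.fg
            full := B.full
            χ := χ'
            χ_ne := hne
            χ_add := hadd
            χ_val := fun γ hγ => by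
              rw [hχ' γ hγ, v.map_mul (B.χ_ne γ hγ) (inv_ne_zero (hun γ hγ).2.1),
                v.map_inv (hun γ hγ).2.1, (hun γ hγ).2.2, neg_zero, add_zero, B.χ_val γ hγ]
            y := B.y
            y_ne := B.y_ne
            y_pos := B.y_pos
            R := B.R
            nonneg := B.nonneg
            loc := B.loc
            χ_mem := hmem'
            y_mem := B.y_mem
            fgen := ⟨T, hBR'⟩
            gen := ?_
            alg := B.alg }, rfl, rfl, rfl, rfl⟩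
  intro f hf hv
  obtain ⟨γ, hγ, h0, a, ha, b, hb, rfl⟩ := B.gen f hf hv
  exact ⟨γ, hγ, h0, ε γ * a, B.R.mul_mem (hun γ hγ).1 ha, b, hb, by rw [hχ γ hγ]; ring⟩

/-- The elements of positive value of a local ring form an ideal. -/
def posId (A : Subalgebra k Ω) (hA : ∀ f ∈ A, v.Ge 0 f) : Ideal A where
  carrier := {x | VPos v (x : Ω)}
  add_mem' := fun ha hb => VPos.add ha hb
  zero_mem' := TAO.VPos.zero
  smul_mem' := fun c _ hx => VPos.mul' (hA _ c.2) hx

/-- A matrix congruent to `1` has a determinant congruent to `1`. -/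
theorem det_one_add {ι : Type*} [Fintype ι] [DecidableEq ι] (A : Subalgebra k Ω)
    (hA : ∀ f ∈ A, v.Ge 0 f) (M : Matrix ι ι A)
    (hM : ∀ i j, VPos v ((M i j : Ω) - (if i = j then 1 else 0))) :
    VPos v ((M.det : Ω) - 1) := by
  have h1 : (Ideal.Quotient.mk (posId A hA)).mapMatrix M = 1 := by
    ext i j
    rw [RingHom.mapMatrix_apply, Matrix.map_apply, Matrix.one_apply]
    by_cases hij : i = j
    · rw [if_pos hij, ← map_one (Ideal.Quotient.mk (posId A hA)), Ideal.Quotient.eq]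
      have := hM i j
      rw [if_pos hij] at this
      exact this
    · rw [if_neg hij, Ideal.Quotient.eq_zero_iff_mem]
      have := hM i j
      rw [if_neg hij, sub_zero] at this
      exact this
  have h2 : Ideal.Quotient.mk (posId A hA) M.det = 1 := by
    rw [RingHom.map_det, h1, Matrix.det_one]
  rw [← map_one (Ideal.Quotient.mk (posId A hA)), Ideal.Quotient.eq] at h2
  exact h2

/-- Change of the free parameters: `y'` is congruent to `y` modulo `m (y) + (χ > 0)`. -/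
theorem chY (B : FR k v D) (y' : Fin D → Ω) (hy0 : ∀ i, y' i ≠ 0) (hyR : ∀ i, y' i ∈ B.R)
    (hyv : ∀ i, VPos v (y' i))
    (h : ∀ i, ∃ c : Fin D → Ω, (∀ j, c j ∈ B.R ∧ VPos v (c j)) ∧ ∃ γ ∈ B.Γ, 0 < γ ∧
      ∃ a ∈ B.R, y' i - B.y i = ∑ j, c j * B.y j + B.χ γ * a) :
    ∃ B' : FR k v D, B'.R = B.R ∧ B'.Γ = B.Γ ∧ B'.χ = B.χ ∧ B'.y = y' := by
  classical
  choose c hc g hgΓ hg0 a ha heq using h
  -- the matrix
  let M : Matrix (Fin D) (Fin D) B.R := fun i j =>
    (if i = j then 1 else 0) + ⟨c i j, (hc i j).1⟩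
  have hMij : ∀ i j, ((M i j : B.R) : Ω) = (if i = j then 1 else 0) + c i j := by
    intro i j
    simp only [M]
    split_ifs <;> simp
  have hdet : VPos v ((M.det : Ω) - 1) := det_one_add B.R B.nonneg M (by
    intro i j
    rw [hMij, add_sub_cancel_left]
    exact (hc i j).2)
  have hdet1 : (M.det : Ω) ≠ 0 ∧ v (M.det : Ω) = 0 := by
    have := val_add_vpos (v := v) one_ne_zero v.map_one hdet
    rwa [add_sub_cancel] at this
  -- the smallest exponent
  have hmin : ∀ _ : Fin D, ∃ δ ∈ B.Γ, 0 < δ ∧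
      ∀ j, ∃ a' ∈ B.R, B.χ (g j) * a j = B.χ δ * a' := by
    intro i
    have hne : (Finset.univ : Finset (Fin D)).Nonempty := ⟨i, Finset.mem_univ i⟩
    obtain ⟨j₀, -, hj₀⟩ := Finset.exists_min_image Finset.univ g hne
    refine ⟨g j₀, hgΓ j₀, hg0 j₀, fun j => ⟨B.χ (g j - g j₀) * a j,
      B.R.mul_mem (B.χ_mem _ (B.Γ.sub_mem (hgΓ j) (hgΓ j₀)) (by
        have := hj₀ j (Finset.mem_univ j)
        linarith)) (ha j), ?_⟩⟩
    rw [← mul_assoc, ← B.χ_add _ (hgΓ j₀) _ (B.Γ.sub_mem (hgΓ j) (hgΓ j₀)), add_sub_cancel]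
  -- the inverse system
  have hinv : ∀ i, ∃ d : Fin D → Ω, (∀ j, d j ∈ B.R) ∧ ∃ δ ∈ B.Γ, 0 < δ ∧ ∃ a' ∈ B.R,
      B.y i = ∑ j, y' j * d j + B.χ δ * a' := by
    intro i
    obtain ⟨δ, hδ, hδ0, hδa⟩ := hmin i
    choose a' ha' haa' using hδa
    have h1 : ∀ j, y' j - B.χ δ * a' j = ∑ l, ((M j l : B.R) : Ω) * B.y l := by
      intro j
      have h2 : y' j = B.y j + (∑ l, c j l * B.y l + B.χ (g j) * a j) := by
        rw [← heq j]; ring
      rw [h2, haa' j]
      simp only [hMij, add_mul, Finset.sum_add_distrib, ite_mul, one_mul, zero_mul,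
        Finset.sum_ite_eq, Finset.mem_univ, if_true]
      ring
    have h2 : (M.det : Ω) * B.y i = ∑ j, ((M.adjugate i j : B.R) : Ω) *
        (y' j - B.χ δ * a' j) := by
      simp only [h1, Finset.mul_sum]
      rw [Finset.sum_comm]
      have h3 : ∀ l, ∑ j, ((M.adjugate i j : B.R) : Ω) * (((M j l : B.R) : Ω) * B.y l) =
          (if i = l then (M.det : Ω) else 0) * B.y l := by
        intro l
        have h4 : ∑ j, M.adjugate i j * M j l = if i = l then M.det else 0 := by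
          have h5 := congrFun (congrFun (Matrix.adjugate_mul M) i) l
          rw [Matrix.mul_apply, Matrix.smul_apply, Matrix.one_apply, smul_eq_mul, mul_ite,
            mul_one, mul_zero] at h5
          exact h5
        have h6 := congrArg (Subtype.val : B.R → Ω) h4
        rw [AddSubmonoidClass.coe_finsetSum] at h6
        rw [show (if i = l then (M.det : Ω) else 0) = (((if i = l then M.det else 0 : B.R)) : Ω) by
          split_ifs <;> rfl, ← h6, Finset.sum_mul]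
        refine Finset.sum_congr rfl fun j _ => ?_
        push_cast
        ring
      rw [Finset.sum_congr rfl fun l _ => h3 l]
      simp
    have h3 : (M.det : Ω)⁻¹ ∈ B.R := B.loc _ M.det.2 hdet1.1 hdet1.2
    refine ⟨fun j => (M.det : Ω)⁻¹ * ((M.adjugate i j : B.R) : Ω), fun j =>
      B.R.mul_mem h3 (M.adjugate i j).2, δ, hδ, hδ0,
      -(∑ j, (M.det : Ω)⁻¹ * ((M.adjugate i j : B.R) : Ω) * a' j), ?_, ?_⟩
    · exact B.R.neg_mem (B.R.sum_mem fun j _ => B.R.mul_mem (B.R.mul_mem h3 (M.adjugate i j).2)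
        (ha' j))
    · have h4 : B.y i = (M.det : Ω)⁻¹ * ((M.det : Ω) * B.y i) := by
        rw [inv_mul_cancel_left₀ hdet1.1]
      rw [h4, h2, Finset.mul_sum, mul_neg, Finset.mul_sum, ← sub_eq_add_neg,
        ← Finset.sum_sub_distrib]
      exact Finset.sum_congr rfl fun j _ => by ring
  refine ⟨{ Γ := B.Γ
            fg := B.fg
            full := B.full
            χ := B.χ
            χ_ne := B.χ_ne
            χ_add := B.χ_add
            χ_val := B.χ_val
            y := y'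
            y_ne := hy0
            y_pos := fun i => hyv i (hy0 i)
            R := B.R
            nonneg := B.nonneg
            loc := B.loc
            χ_mem := B.χ_mem
            y_mem := hyR
            fgen := B.fgen
            gen := ?_
            alg := B.alg }, rfl, rfl, rfl, rfl⟩
  intro f hf hv
  obtain ⟨γ, hγ, h0, a₀, ha₀, b, hb, rfl⟩ := B.gen f hf hv
  choose d hd δ hδ hδ0 a' ha' hda using hinv
  -- one exponent for all
  have hε : ∃ ε ∈ B.Γ, 0 < ε ∧ ε ≤ γ ∧ ∀ i, ε ≤ δ i := by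
    have key : ∀ s : Finset (Fin D), ∃ ε ∈ B.Γ, 0 < ε ∧ ε ≤ γ ∧ ∀ i ∈ s, ε ≤ δ i := by
      intro s
      induction s using Finset.induction_on with
      | empty => exact ⟨γ, hγ, h0, le_rfl, by simp⟩
      | insert i s _ ih =>
        obtain ⟨ε, h1, h2, h3, h4⟩ := ih
        rcases le_total ε (δ i) with h5 | h5
        · refine ⟨ε, h1, h2, h3, fun j hj => ?_⟩
          rcases Finset.mem_insert.1 hj with rfl | hj
          · exact h5
          · exact h4 j hj
        · refine ⟨δ i, hδ i, hδ0 i, h5.trans h3, fun j hj => ?_⟩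
          rcases Finset.mem_insert.1 hj with rfl | hj
          · exact le_rfl
          · exact h5.trans (h4 j hj)
    obtain ⟨ε, h1, h2, h3, h4⟩ := key Finset.univ
    exact ⟨ε, h1, h2, h3, fun i => h4 i (Finset.mem_univ i)⟩
  obtain ⟨ε, hεΓ, hε0, hεγ, hεδ⟩ := hε
  have hsh : ∀ {δ' : 𝕂}, δ' ∈ B.Γ → ε ≤ δ' → B.χ δ' = B.χ ε * B.χ (δ' - ε) := by
    intro δ' hδ' _
    rw [← B.χ_add _ hεΓ _ (B.Γ.sub_mem hδ' hεΓ), add_sub_cancel]
  refine ⟨ε, hεΓ, hε0, B.χ (γ - ε) * a₀ + ∑ i, B.χ (δ i - ε) * a' i * b i, ?_,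
    fun j => ∑ i, d i j * b i, ?_, ?_⟩
  · refine B.R.add_mem (B.R.mul_mem (B.χ_mem _ (B.Γ.sub_mem hγ hεΓ) (by linarith)) ha₀)
      (B.R.sum_mem fun i _ => B.R.mul_mem (B.R.mul_mem (B.χ_mem _ (B.Γ.sub_mem (hδ i) hεΓ) (by
        have := hεδ i
        linarith)) (ha' i)) (hb i))
  · exact fun j => B.R.sum_mem fun i _ => B.R.mul_mem (hd i j) (hb i)
  · have h1 : ∑ i, B.y i * b i = ∑ j, y' j * (∑ i, d i j * b i) +
        B.χ ε * ∑ i, B.χ (δ i - ε) * a' i * b i := by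
      have h2 : ∀ i, B.y i * b i = (∑ j, y' j * (d i j * b i)) +
          B.χ ε * (B.χ (δ i - ε) * a' i * b i) := by
        intro i
        rw [hda i, hsh (hδ i) (hεδ i), add_mul, Finset.sum_mul]
        congr 1
        · exact Finset.sum_congr rfl fun j _ => by ring
        · ring
      rw [Finset.sum_congr rfl fun i _ => h2 i, Finset.sum_add_distrib, Finset.sum_comm,
        Finset.mul_sum]
      congr 1
      exact Finset.sum_congr rfl fun j _ => by rw [Finset.mul_sum]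
    rw [h1, hsh hγ hεγ]
    ring

end Pool.Agent.TGL
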