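import Pool.Agent.Lib.ALLZO.A2b
import Pool.Agent.Lib.ALL_h43.Mon
import Pool.Agent.Lib.ALL_h61.Chi
import Mathlib.FieldTheory.IsAlgClosed.Basic

/-!
# TANK G, limit level, row 3.4a: invariants of a group acting trivially modulo the monomials

`R` is a local ring with monomials `χ` and content valuation `w`, `G` a finite group of
automorphisms of `N = Frac R` which preserves `R` and acts trivially on `R / (w > 0)`.
Part A: `w` is invariant, the monomials can be chosen to be eigenvectors.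
-/

set_option autoImplicit false

open Polynomial

namespace Pool.Agent.TGL

open Pool.Agent.TAO (OVal VPos val_add_vpos Ctx0)
open Pool.Agent.ALLO (locv)
open Pool.Agent.ALLh43 (Mon)
open Pool.Agent.LU1 (FracIs fixO mem_fixO)
open Pool.Agent.ALLZO (ALLZ_vpos_sum)

universe u w

variable {k Ω : Type u} [Field k] [Field Ω] [Algebra k Ω]
  {𝕂 : Type w} [Field 𝕂] [LinearOrder 𝕂] [IsStrictOrderedRing 𝕂]
  {F : IntermediateField k Ω}

/-- The data: a local ring `R` of `N` with monomials `χ` and content valuation `w`, and a group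
`G` which acts on `R` and acts trivially modulo the elements of positive content. -/
structure ID (v w : OVal 𝕂 Ω) (Γ : AddSubgroup 𝕂) (χ : 𝕂 → Ω) (R : Subalgebra k Ω)
    (N : IntermediateField F Ω) (G : Subgroup (N ≃ₐ[F] N)) : Prop where
  mon : Mon v Γ χ
  nonneg : ∀ f ∈ R, v.Ge 0 f
  loc : ∀ f ∈ R, f ≠ 0 → v f = 0 → f⁻¹ ∈ R
  χ_mem : ∀ γ ∈ Γ, 0 ≤ γ → χ γ ∈ R
  le : ∀ f ∈ R, f ∈ N
  frac : ∀ f ∈ N, ∃ a ∈ R, ∃ b ∈ R, b ≠ 0 ∧ f = a / b
  wχ : ∀ γ ∈ Γ, w (χ γ) = γ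
  wR : ∀ f ∈ R, w.Ge 0 f
  wval : ∀ f ∈ R, f ≠ 0 → w f ∈ Γ
  wdiv : ∀ f ∈ R, f ≠ 0 → f / χ (w f) ∈ R
  stab : ∀ σ ∈ G, ∀ n : N, (n : Ω) ∈ R → ((σ n : N) : Ω) ∈ R
  triv : ∀ σ ∈ G, ∀ n : N, (n : Ω) ∈ R → VPos w (((σ n : N) : Ω) - n)
  rat : ∀ σ ∈ G, ∀ γ ∈ Γ, ∀ n : N, (n : Ω) = χ γ → ((σ n : N) : Ω) / χ γ ∈ R

namespace ID

variable {v w : OVal 𝕂 Ω} {Γ : AddSubgroup 𝕂} {χ : 𝕂 → Ω} {R : Subalgebra k Ω}
  {N : IntermediateField F Ω} {G : Subgroup (N ≃ₐ[F] N)}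

theorem coe_ne {a : N} : (a : Ω) ≠ 0 ↔ a ≠ 0 :=
  ⟨fun h h1 => h (by rw [h1]; rfl), fun h h1 => h (Subtype.ext h1)⟩

/-- Elements of positive content are in the maximal ideal. -/
theorem pos (h : ID v w Γ χ R N G) {f : Ω} (hf : f ∈ R) (hw : VPos w f) : VPos v f := by
  intro h0
  have h1 := h.wval f hf h0
  have h2 := h.wdiv f hf h0
  have h3 := h.mon.ne _ h1
  have h4 : f / χ (w f) ≠ 0 := div_ne_zero h0 h3
  have h5 := h.nonneg _ h2 h4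
  rw [v.map_div h0 h3, h.mon.val _ h1] at h5
  have := hw h0
  linarith

theorem const (h : ID v w Γ χ R N G) {c : k} (hc : c ≠ 0) : w (algebraMap k Ω c) = 0 := by
  have h0 : algebraMap k Ω c ≠ 0 := (_root_.map_ne_zero _).2 hc
  have h1 := h.wR _ (R.algebraMap_mem c) h0
  have h2 := h.wR _ (R.algebraMap_mem c⁻¹) ((_root_.map_ne_zero _).2 (inv_ne_zero hc))
  rw [map_inv₀, w.map_inv h0] at h2
  linarith

/-- A constant of positive content is `0`. -/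
theorem const_zero (h : ID v w Γ χ R N G) {c : k} (hc : VPos w (algebraMap k Ω c)) : c = 0 := by
  by_contra h0
  have := hc ((_root_.map_ne_zero _).2 h0)
  rw [h.const h0] at this
  exact lt_irrefl _ this

theorem χN (h : ID v w Γ χ R N G) {γ : 𝕂} (hγ : γ ∈ Γ) : χ γ ∈ N := by
  rcases le_total 0 γ with h0 | h0
  · exact h.le _ (h.χ_mem γ hγ h0)
  · have h1 := N.inv_mem (h.le _ (h.χ_mem (-γ) (Γ.neg_mem hγ) (by linarith)))
    rwa [h.mon.neg hγ, inv_inv] at h1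

/-- `R = R[1/χ] ∩ {w ≥ 0}`. -/
theorem cut (h : ID v w Γ χ R N G) {f : Ω} {γ : 𝕂} (hγ : γ ∈ Γ) (h1 : χ γ * f ∈ R)
    (h0 : f ≠ 0) (hw : 0 ≤ w f) : f ∈ R := by
  have hχ := h.mon.ne γ hγ
  have h2 : χ γ * f ≠ 0 := mul_ne_zero hχ h0
  have h3 : w (χ γ * f) = γ + w f := by rw [w.map_mul hχ h0, h.wχ γ hγ]
  have h4 := h.wval _ h1 h2
  have h5 := h.wdiv _ h1 h2
  rw [h3] at h4 h5
  have h6 : w f ∈ Γ := by
    have := Γ.sub_mem h4 hγ
    rwa [add_sub_cancel_left] at this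
  have h7 : f = χ (w f) * (χ γ * f / χ (γ + w f)) := by
    rw [h.mon.add γ hγ _ h6]
    have := h.mon.ne _ h6
    field_simp
  rw [h7]
  exact R.mul_mem (h.χ_mem _ h6 hw) h5

/-- Every element of `N` is a monomial times a quotient of elements of content `0`. -/
theorem split (h : ID v w Γ χ R N G) {f : Ω} (hf : f ∈ N) (h0 : f ≠ 0) :
    w f ∈ Γ ∧ ∃ a ∈ R, ∃ b ∈ R, a ≠ 0 ∧ b ≠ 0 ∧ w a = 0 ∧ w b = 0 ∧ f = χ (w f) * (a / b) := by
  obtain ⟨a, ha, b, hb, hb0, rfl⟩ := h.frac f hf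
  have ha0 : a ≠ 0 := by rintro rfl; simp at h0
  have h1 := h.wval a ha ha0
  have h2 := h.wval b hb hb0
  have h3 : w (a / b) = w a - w b := w.map_div ha0 hb0
  have h4 := h.mon.ne _ h1
  have h5 := h.mon.ne _ h2
  refine ⟨by rw [h3]; exact Γ.sub_mem h1 h2, a / χ (w a), h.wdiv a ha ha0, b / χ (w b),
    h.wdiv b hb hb0, div_ne_zero ha0 h4, div_ne_zero hb0 h5, ?_, ?_, ?_⟩
  · rw [w.map_div ha0 h4, h.wχ _ h1, sub_self]
  · rw [w.map_div hb0 h5, h.wχ _ h2, sub_self]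
  · rw [h3, h.mon.sub h1 h2]
    field_simp

/-- `w` is `G`-invariant. -/
theorem winv (h : ID v w Γ χ R N G) {σ : N ≃ₐ[F] N} (hσ : σ ∈ G) {n : N} (hn : n ≠ 0) :
    w ((σ n : N) : Ω) = w (n : Ω) := by
  -- elements of content `0`
  have h0 : ∀ σ ∈ G, ∀ a : N, (a : Ω) ∈ R → (a : Ω) ≠ 0 → w (a : Ω) = 0 →
      ((σ a : N) : Ω) ≠ 0 ∧ w ((σ a : N) : Ω) = 0 := by
    intro σ hσ a ha ha0 hwa
    have := val_add_vpos (v := w) ha0 hwa (h.triv σ hσ a ha)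
    rwa [add_sub_cancel] at this
  have hge : ∀ σ ∈ G, ∀ a : N, a ≠ 0 → w (a : Ω) ≤ w ((σ a : N) : Ω) := by
    intro σ hσ a ha
    obtain ⟨h1, x, hx, z, hz, hx0, hz0, hwx, hwz, hax⟩ := h.split a.2 (coe_ne.2 ha)
    let c : N := ⟨χ (w (a : Ω)), h.χN h1⟩
    let x' : N := ⟨x, h.le x hx⟩
    let z' : N := ⟨z, h.le z hz⟩
    have h2 : a = c * (x' / z') := Subtype.ext hax
    have h3 := h0 σ hσ x' hx hx0 hwx
    have h4 := h0 σ hσ z' hz hz0 hwz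
    have hc0 : (c : Ω) ≠ 0 := h.mon.ne _ h1
    have hσc : ((σ c : N) : Ω) ≠ 0 := coe_ne.2 ((map_ne_zero_iff σ σ.injective).2 (coe_ne.1 hc0))
    have h5 := h.rat σ hσ _ h1 c rfl
    have h6 := h.wR _ h5 (div_ne_zero hσc hc0)
    rw [w.map_div hσc (h.mon.ne _ h1), h.wχ _ h1] at h6
    have h7 : ((σ a : N) : Ω) = ((σ c : N) : Ω) * (((σ x' : N) : Ω) / ((σ z' : N) : Ω)) := by
      conv_lhs => rw [h2]
      rw [map_mul, map_div₀]
      push_cast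
      rfl
    rw [h7, w.map_mul hσc (div_ne_zero h3.1 h4.1), w.map_div h3.1 h4.1, h3.2, h4.2]
    linarith
  refine le_antisymm ?_ (hge σ hσ n hn)
  have h1 := hge σ⁻¹ (G.inv_mem hσ) (σ n) ((map_ne_zero_iff σ σ.injective).2 hn)
  rwa [← AlgEquiv.mul_apply, inv_mul_cancel, AlgEquiv.one_apply] at h1

/-- `G` acts trivially modulo the elements of positive value of the valuation ring of `w`. -/
theorem triv' (h : ID v w Γ χ R N G) {σ : N ≃ₐ[F] N} (hσ : σ ∈ G) {n : N}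
    (hn : w.Ge 0 (n : Ω)) : VPos w (((σ n : N) : Ω) - n) := by
  by_cases h0 : n = 0
  · rw [h0, map_zero, ZeroMemClass.coe_zero, sub_zero]
    exact VPos.zero
  have h0' := coe_ne.2 h0
  rcases (hn h0').lt_or_eq with hw | hw
  · refine VPos.sub ?_ (fun _ => hw)
    intro _
    rw [h.winv hσ h0]
    exact hw
  · obtain ⟨h1, x, hx, z, hz, hx0, hz0, hwx, hwz, hax⟩ := h.split n.2 h0'
    rw [← hw, h.mon.zero, one_mul] at hax
    let x' : N := ⟨x, h.le x hx⟩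
    let z' : N := ⟨z, h.le z hz⟩
    have h2 : n = x' / z' := Subtype.ext hax
    have h3 := h.triv σ hσ x' hx
    have h4 := h.triv σ hσ z' hz
    have hσz : ((σ z' : N) : Ω) ≠ 0 ∧ w ((σ z' : N) : Ω) = 0 := by
      have := val_add_vpos (v := w) hz0 hwz h4
      rwa [add_sub_cancel] at this
    have h5 : ((σ n : N) : Ω) - n = ((((σ x' : N) : Ω) - x) * z - x * (((σ z' : N) : Ω) - z)) /
        (((σ z' : N) : Ω) * z) := by
      rw [h2, map_div₀]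
      push_cast
      have := hσz.1
      show ((σ x' : N) : Ω) / ((σ z' : N) : Ω) - x / z = _
      field_simp
      ring
    rw [h5, div_eq_mul_inv]
    refine VPos.mul (VPos.sub (VPos.mul h3 (h.wR z hz)) (VPos.mul' (h.wR x hx) h4)) ?_
    intro _
    rw [w.map_inv (mul_ne_zero hσz.1 hz0), w.map_mul hσz.1 hz0, hσz.2, hwz, add_zero, neg_zero]

end ID

/-- An element which is a root of unity modulo the elements of positive value is a constant. -/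
theorem exists_root [IsAlgClosed k] {w : OVal 𝕂 Ω} {R : Subalgebra k Ω}
    (hR : ∀ f ∈ R, w.Ge 0 f) {c : Ω} (hc : c ∈ R) {M : ℕ} (hM : 0 < M)
    (h : VPos w (c ^ M - 1)) : ∃ ζ : k, VPos w (c - algebraMap k Ω ζ) := by
  by_contra hcon
  push Not at hcon
  have hval : ∀ ζ : k, (c - algebraMap k Ω ζ) ≠ 0 ∧ w (c - algebraMap k Ω ζ) = 0 := by
    intro ζ
    have h1 := hcon ζ
    rw [VPos] at h1
    push Not at h1
    have h2 := hR _ (R.sub_mem hc (R.algebraMap_mem ζ)) h1.1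
    exact ⟨h1.1, le_antisymm h1.2 h2⟩
  have hsp : ∀ s : Multiset k, (s.map fun ζ => c - algebraMap k Ω ζ).prod ≠ 0 ∧
      w (s.map fun ζ => c - algebraMap k Ω ζ).prod = 0 := by
    intro s
    induction s using Multiset.induction_on with
    | empty => simp [w.map_one]
    | cons a s ih =>
      rw [Multiset.map_cons, Multiset.prod_cons]
      exact ⟨mul_ne_zero (hval a).1 ih.1, by
        rw [w.map_mul (hval a).1 ih.1, (hval a).2, ih.2, add_zero]⟩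
  have hP := (IsAlgClosed.splits (X ^ M - 1 : k[X])).eq_prod_roots
  rw [leadingCoeff_X_pow_sub_one hM, C_1, one_mul] at hP
  have h1 := congrArg (aeval c) hP
  rw [map_multiset_prod, Multiset.map_map] at h1
  have h2 : (⇑(aeval c) ∘ fun x : k => X - C x) = fun ζ => c - algebraMap k Ω ζ := by
    funext ζ
    simp
  rw [h2, map_sub, map_pow, aeval_X, map_one] at h1
  obtain ⟨h3, h4⟩ := hsp (X ^ M - 1 : k[X]).roots
  rw [← h1] at h3 h4
  have := h h3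
  rw [h4] at this
  exact lt_irrefl _ this

namespace ID

variable {v w : OVal 𝕂 Ω} {Γ : AddSubgroup 𝕂} {χ : 𝕂 → Ω} {R : Subalgebra k Ω}
  {N : IntermediateField F Ω} {G : Subgroup (N ≃ₐ[F] N)}

/-- The monomial as an element of `N`. -/
def X (h : ID v w Γ χ R N G) {γ : 𝕂} (hγ : γ ∈ Γ) : N := ⟨χ γ, h.χN hγ⟩

theorem coe_X (h : ID v w Γ χ R N G) {γ : 𝕂} (hγ : γ ∈ Γ) : ((h.X hγ : N) : Ω) = χ γ := rfl

theorem X_ne (h : ID v w Γ χ R N G) {γ : 𝕂} (hγ : γ ∈ Γ) : h.X hγ ≠ 0 :=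
  coe_ne.1 (h.mon.ne γ hγ)

/-- The constants `ζ`. -/
theorem exists_zeta [FiniteDimensional F N] [IsAlgClosed k] (h : ID v w Γ χ R N G)
    {σ : N ≃ₐ[F] N} (hσ : σ ∈ G) {γ : 𝕂} (hγ : γ ∈ Γ) :
    ∃ ζ : k, ζ ≠ 0 ∧ VPos w (((σ (h.X hγ) : N) : Ω) / χ γ - algebraMap k Ω ζ) := by
  have hχ0 := h.mon.ne γ hγ
  have hX0 := h.X_ne hγ
  have hσX : ((σ (h.X hγ) : N) : Ω) ≠ 0 :=
    coe_ne.2 ((map_ne_zero_iff σ σ.injective).2 hX0)
  let C : N := σ (h.X hγ) / h.X hγ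
  have hC : (C : Ω) = ((σ (h.X hγ) : N) : Ω) / χ γ := rfl
  have hCR : (C : Ω) ∈ R := h.rat σ hσ γ hγ _ rfl
  have hpow : ∀ m : ℕ, σ ^ m ∈ G := fun m => G.pow_mem hσ m
  have hc : ∀ m : ℕ, (((σ ^ m) (h.X hγ) : N) : Ω) / χ γ ∈ R := fun m =>
    h.rat _ (hpow m) γ hγ _ rfl
  have key : ∀ m : ℕ, VPos w ((((σ ^ m) (h.X hγ) : N) : Ω) / χ γ - (C : Ω) ^ m) := by
    intro m
    induction m with
    | zero =>
      rw [pow_zero, pow_zero, AlgEquiv.one_apply, coe_X, div_self hχ0, sub_self]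
      exact VPos.zero
    | succ m ih =>
      have h1 : (σ ^ (m + 1)) (h.X hγ) = (σ ^ m) C * (σ ^ m) (h.X hγ) := by
        rw [pow_succ, AlgEquiv.mul_apply, ← map_mul]
        congr 1
        exact (div_mul_cancel₀ _ hX0).symm
      have h2 : (((σ ^ (m + 1)) (h.X hγ) : N) : Ω) / χ γ - (C : Ω) ^ (m + 1) =
          ((((σ ^ m) C : N) : Ω) - C) * ((((σ ^ m) (h.X hγ) : N) : Ω) / χ γ) +
          (C : Ω) * ((((σ ^ m) (h.X hγ) : N) : Ω) / χ γ - (C : Ω) ^ m) := by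
        rw [h1]
        push_cast
        ring
      rw [h2]
      exact (VPos.mul (h.triv _ (hpow m) C hCR) (h.wR _ (hc m))).add
        (VPos.mul' (h.wR _ hCR) ih)
  have hfin : IsOfFinOrder σ := isOfFinOrder_of_finite σ
  have h1 := key (orderOf σ)
  rw [pow_orderOf_eq_one, AlgEquiv.one_apply, coe_X, div_self hχ0] at h1
  have h2 : VPos w ((C : Ω) ^ orderOf σ - 1) := by
    have := h1.neg
    rwa [neg_sub] at this
  obtain ⟨ζ, hζ⟩ := exists_root h.wR hCR hfin.orderOf_pos h2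
  refine ⟨ζ, ?_, hζ⟩
  rintro rfl
  rw [_root_.map_zero, sub_zero] at hζ
  have h3 := hζ (div_ne_zero hσX hχ0)
  rw [hC, w.map_div hσX hχ0, h.winv hσ hX0, coe_X, sub_self] at h3
  exact lt_irrefl _ h3

/-- The sum over the group. -/
noncomputable def tr1 [FiniteDimensional F N] (G : Subgroup (N ≃ₐ[F] N)) (b : N) : N :=
  letI := Fintype.ofFinite G
  ∑ σ : G, (σ : N ≃ₐ[F] N) b

/-- Eigenvectors. -/
theorem exists_eigen [FiniteDimensional F N] [IsAlgClosed k] (h : ID v w Γ χ R N G)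
    (hG : (Nat.card G : k) ≠ 0) {γ : 𝕂} (hγ : γ ∈ Γ) :
    ∃ a : N, (a : Ω) / χ γ ∈ R ∧ (a : Ω) ≠ 0 ∧ w ((a : Ω) / χ γ) = 0 ∧
      v ((a : Ω) / χ γ) = 0 ∧ ∀ τ ∈ G, ∃ ζ : k, ζ ≠ 0 ∧ ((τ a : N) : Ω) = algebraMap k Ω ζ * a := by
  classical
  have hχ0 := h.mon.ne γ hγ
  have hX0 := h.X_ne hγ
  choose ζ hζ0 hζ using fun (σ : G) => h.exists_zeta σ.2 hγ
  let _ := Fintype.ofFinite G
  have hkF : ∀ c : k, algebraMap k Ω c ∈ F := fun c => F.algebraMap_mem c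
  let cN : k → N := fun c => algebraMap F N ⟨algebraMap k Ω c, hkF c⟩
  have hcN : ∀ c : k, ((cN c : N) : Ω) = algebraMap k Ω c := fun _ => rfl
  have hcσ : ∀ (τ : N ≃ₐ[F] N) (c : k), τ (cN c) = cN c := fun τ c => τ.commutes _
  -- `C σ = σ χ / χ`
  let C : G → N := fun σ => (σ : N ≃ₐ[F] N) (h.X hγ) / h.X hγ
  have hCΩ : ∀ σ, ((C σ : N) : Ω) = (((σ : N ≃ₐ[F] N) (h.X hγ) : N) : Ω) / χ γ := fun _ => rfl
  have hCR : ∀ σ, ((C σ : N) : Ω) ∈ R := fun σ => h.rat σ σ.2 γ hγ _ rfl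
  -- multiplicativity
  have hmul : ∀ σ τ : G, ζ (τ * σ) = ζ τ * ζ σ := by
    intro σ τ
    have h1 : C (τ * σ) = (τ : N ≃ₐ[F] N) (C σ) * C τ := by
      show ((τ * σ : G) : N ≃ₐ[F] N) (h.X hγ) / h.X hγ = _
      rw [map_div₀, Subgroup.coe_mul, AlgEquiv.mul_apply]
      have : (τ : N ≃ₐ[F] N) (h.X hγ) ≠ 0 := (map_ne_zero_iff _ (AlgEquiv.injective _)).2 hX0
      show _ = _ / _ * ((τ : N ≃ₐ[F] N) (h.X hγ) / h.X hγ)
      field_simp
    have h2 : VPos w (algebraMap k Ω (ζ (τ * σ) - ζ τ * ζ σ)) := by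
      have e : algebraMap k Ω (ζ (τ * σ) - ζ τ * ζ σ) =
          -(((C (τ * σ) : N) : Ω) - algebraMap k Ω (ζ (τ * σ))) +
          ((((τ : N ≃ₐ[F] N) (C σ) : N) : Ω) - C σ) * C τ +
          (((C σ : N) : Ω) - algebraMap k Ω (ζ σ)) * C τ +
          algebraMap k Ω (ζ σ) * (((C τ : N) : Ω) - algebraMap k Ω (ζ τ)) := by
        rw [h1, _root_.map_sub, _root_.map_mul]
        push_cast
        ring
      rw [e]
      refine (((hζ (τ * σ)).neg.add (VPos.mul (h.triv τ τ.2 _ (hCR σ)) (h.wR _ (hCR τ)))).add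
        (VPos.mul (hζ σ) (h.wR _ (hCR τ)))).add (VPos.mul' ?_ (hζ τ))
      exact h.wR _ (R.algebraMap_mem _)
    exact sub_eq_zero.1 (h.const_zero h2)
  -- the eigenvector
  let a : N := ∑ σ : G, cN (ζ σ)⁻¹ * (σ : N ≃ₐ[F] N) (h.X hγ)
  have haτ : ∀ τ : G, (τ : N ≃ₐ[F] N) a = cN (ζ τ) * a := by
    intro τ
    simp only [a]
    rw [map_sum, Finset.mul_sum]
    refine Fintype.sum_equiv (Equiv.mulLeft τ) _ _ fun σ => ?_
    rw [map_mul, hcσ, Equiv.coe_mulLeft, hmul σ τ, Subgroup.coe_mul, AlgEquiv.mul_apply,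
      ← mul_assoc]
    congr 1
    apply Subtype.ext
    rw [MulMemClass.coe_mul, hcN, hcN, hcN, ← _root_.map_mul]
    congr 1
    have := hζ0 τ
    field_simp
  have hdiv : (a : Ω) / χ γ = ∑ σ : G, algebraMap k Ω (ζ σ)⁻¹ * ((C σ : N) : Ω) := by
    have : (a : Ω) = ∑ σ : G, algebraMap k Ω (ζ σ)⁻¹ * (((σ : N ≃ₐ[F] N) (h.X hγ) : N) : Ω) := by
      simp only [a]
      rw [AddSubmonoidClass.coe_finsetSum]
      rfl
    rw [this, Finset.sum_div]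
    refine Finset.sum_congr rfl fun σ _ => ?_
    rw [hCΩ, mul_div_assoc]
  have hcong : VPos w ((a : Ω) / χ γ - algebraMap k Ω (Nat.card G : k)) := by
    have e : (a : Ω) / χ γ - algebraMap k Ω (Nat.card G : k) =
        ∑ σ : G, algebraMap k Ω (ζ σ)⁻¹ * (((C σ : N) : Ω) - algebraMap k Ω (ζ σ)) := by
      rw [hdiv]
      simp only [mul_sub, Finset.sum_sub_distrib]
      congr 1
      rw [Nat.card_eq_fintype_card, map_natCast, ← nsmul_one, ← Finset.card_univ,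
        ← Finset.sum_const]
      refine Finset.sum_congr rfl fun σ _ => ?_
      rw [← _root_.map_mul, inv_mul_cancel₀ (hζ0 σ), _root_.map_one]
    rw [e]
    exact ALLZ_vpos_sum _ _ fun σ _ => VPos.mul' (h.wR _ (R.algebraMap_mem _)) (hζ σ)
  have hval := val_add_vpos (v := w) ((_root_.map_ne_zero (algebraMap k Ω)).2 hG) (h.const hG)
    hcong
  rw [add_sub_cancel] at hval
  have haR : (a : Ω) / χ γ ∈ R := by
    rw [hdiv]
    exact R.sum_mem fun σ _ => R.mul_mem (R.algebraMap_mem _) (hCR σ)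
  have hv0 : v (algebraMap k Ω (Nat.card G : k)) = 0 := by
    have h0 := (_root_.map_ne_zero (algebraMap k Ω)).2 hG
    have h1 := h.nonneg _ (R.algebraMap_mem (Nat.card G : k)) h0
    have h2 := h.nonneg _ (R.algebraMap_mem (Nat.card G : k)⁻¹)
      ((_root_.map_ne_zero (algebraMap k Ω)).2 (inv_ne_zero hG))
    rw [map_inv₀, v.map_inv h0] at h2
    linarith
  have hvval := val_add_vpos (v := v) ((_root_.map_ne_zero (algebraMap k Ω)).2 hG) hv0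
    (h.pos (R.sub_mem haR (R.algebraMap_mem _)) hcong)
  rw [add_sub_cancel] at hvval
  refine ⟨a, haR, ?_, hval.2, hvval.2, fun τ hτ => ⟨ζ ⟨τ, hτ⟩, hζ0 _, ?_⟩⟩
  · intro h0
    exact hval.1 (by rw [h0, zero_div])
  · have := congrArg (fun x : N => (x : Ω)) (haτ ⟨τ, hτ⟩)
    exact this

/-- The eigenvectors. -/
def eigG (G : Subgroup (N ≃ₐ[F] N)) : Subgroup Ωˣ where
  carrier := {a | ∃ n : N, (n : Ω) = a ∧ ∀ τ ∈ G, ∃ ζ : k, ζ ≠ 0 ∧
    ((τ n : N) : Ω) = algebraMap k Ω ζ * n}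
  mul_mem' := by
    rintro a b ⟨n, hn, h1⟩ ⟨m, hm, h2⟩
    refine ⟨n * m, by rw [MulMemClass.coe_mul, hn, hm, Units.val_mul], fun τ hτ => ?_⟩
    obtain ⟨ζ, hζ, h3⟩ := h1 τ hτ
    obtain ⟨ξ, hξ, h4⟩ := h2 τ hτ
    refine ⟨ζ * ξ, mul_ne_zero hζ hξ, ?_⟩
    rw [map_mul, MulMemClass.coe_mul, MulMemClass.coe_mul, h3, h4, _root_.map_mul]
    ring
  one_mem' := ⟨1, rfl, fun τ _ => ⟨1, one_ne_zero, by
    rw [map_one, _root_.map_one, one_mul]⟩⟩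
  inv_mem' := by
    rintro a ⟨n, hn, h1⟩
    refine ⟨n⁻¹, by rw [Units.val_inv_eq_inv_val, ← hn]; rfl, fun τ hτ => ?_⟩
    obtain ⟨ζ, hζ, h3⟩ := h1 τ hτ
    refine ⟨ζ⁻¹, inv_ne_zero hζ, ?_⟩
    rw [map_inv₀, map_inv₀]
    show ((τ n : N) : Ω)⁻¹ = (algebraMap k Ω ζ)⁻¹ * (n : Ω)⁻¹
    rw [h3, mul_inv]

/-- The units of `R` of content `0`. -/
def unG (v w : OVal 𝕂 Ω) (R : Subalgebra k Ω) (loc : ∀ f ∈ R, f ≠ 0 → v f = 0 → f⁻¹ ∈ R) :
    Subgroup Ωˣ where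
  carrier := {a | (a : Ω) ∈ R ∧ v (a : Ω) = 0 ∧ w (a : Ω) = 0}
  mul_mem' := by
    rintro a b ⟨h1, h2, h3⟩ ⟨h4, h5, h6⟩
    refine ⟨by rw [Units.val_mul]; exact R.mul_mem h1 h4, ?_, ?_⟩
    · rw [Units.val_mul, v.map_mul a.ne_zero b.ne_zero, h2, h5, add_zero]
    · rw [Units.val_mul, w.map_mul a.ne_zero b.ne_zero, h3, h6, add_zero]
  one_mem' := ⟨R.one_mem, v.map_one, w.map_one⟩
  inv_mem' := by
    rintro a ⟨h1, h2, h3⟩
    refine ⟨by rw [Units.val_inv_eq_inv_val]; exact loc _ h1 a.ne_zero h2, ?_, ?_⟩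
    · rw [Units.val_inv_eq_inv_val, v.map_inv a.ne_zero, h2, neg_zero]
    · rw [Units.val_inv_eq_inv_val, w.map_inv a.ne_zero, h3, neg_zero]

/-- The monomials are eigenvectors. -/
def Eig (Γ : AddSubgroup 𝕂) (χ : 𝕂 → Ω) (G : Subgroup (N ≃ₐ[F] N)) : Prop :=
  ∀ γ ∈ Γ, ∀ n : N, (n : Ω) = χ γ → ∀ τ ∈ G, ∃ ζ : k, ζ ≠ 0 ∧
    ((τ n : N) : Ω) = algebraMap k Ω ζ * n

/-- The monomials can be changed by units to become eigenvectors. -/
theorem exists_eig [FiniteDimensional F N] [IsAlgClosed k] (h : ID v w Γ χ R N G)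
    (hfg : Γ.FG) (hG : (Nat.card G : k) ≠ 0) :
    ∃ χ' : 𝕂 → Ω, ID v w Γ χ' R N G ∧ Eig (k := k) Γ χ' G ∧
      ∀ γ ∈ Γ, χ' γ / χ γ ∈ R ∧ χ γ / χ' γ ∈ R ∧ v (χ γ / χ' γ) = 0 := by
  obtain ⟨ψ, hψ0, hψa, hψ⟩ := ALL61C.exists_chi Γ hfg χ h.mon.ne h.mon.add
    (eigG (k := k) G) (unG v w R h.loc) (by
      intro γ hγ
      obtain ⟨a, haR, ha0, haw, hav, hae⟩ := h.exists_eigen hG hγ
      refine ⟨Units.mk0 (a : Ω) ha0, ⟨a, rfl, hae⟩, ?_⟩
      show _ ∧ _ ∧ _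
      rw [Units.val_div_eq_div_val]
      exact ⟨haR, hav, haw⟩)
  have hu : ∀ γ ∈ Γ, ψ γ / χ γ ∈ R ∧ v (ψ γ / χ γ) = 0 ∧ w (ψ γ / χ γ) = 0 := by
    intro γ hγ
    have h1 := (hψ γ hγ (hψ0 γ hγ)).2
    obtain ⟨h2, h3, h4⟩ := h1
    rw [Units.val_div_eq_div_val] at h2 h3 h4
    exact ⟨h2, h3, h4⟩
  have hu' : ∀ γ ∈ Γ, χ γ / ψ γ ∈ R := by
    intro γ hγ
    obtain ⟨h2, h3, -⟩ := hu γ hγ
    have := h.loc _ h2 (div_ne_zero (hψ0 γ hγ) (h.mon.ne γ hγ)) h3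
    rwa [inv_div] at this
  have hψw : ∀ γ ∈ Γ, w (ψ γ) = γ := by
    intro γ hγ
    have h1 := (hu γ hγ).2.2
    rw [w.map_div (hψ0 γ hγ) (h.mon.ne γ hγ), h.wχ γ hγ] at h1
    linarith
  have hψv : ∀ γ ∈ Γ, v (ψ γ) = γ := by
    intro γ hγ
    have h1 := (hu γ hγ).2.1
    rw [v.map_div (hψ0 γ hγ) (h.mon.ne γ hγ), h.mon.val γ hγ] at h1
    linarith
  have hEig : Eig (k := k) Γ ψ G := by
    intro γ hγ n hn τ hτ
    obtain ⟨m, hm, h1⟩ := (hψ γ hγ (hψ0 γ hγ)).1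
    have : m = n := Subtype.ext (by rw [hm, hn]; rfl)
    rw [← this]
    exact h1 τ hτ
  refine ⟨ψ, ?_, hEig, fun γ hγ => ⟨(hu γ hγ).1, hu' γ hγ, ?_⟩⟩
  · exact
      { mon := ⟨hψ0, hψa, hψv⟩
        nonneg := h.nonneg
        loc := h.loc
        χ_mem := fun γ hγ h0 => by
          have := R.mul_mem (hu γ hγ).1 (h.χ_mem γ hγ h0)
          rwa [div_mul_cancel₀ _ (h.mon.ne γ hγ)] at this
        le := h.le
        frac := h.frac
        wχ := hψw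
        wR := h.wR
        wval := h.wval
        wdiv := fun f hf h0 => by
          have h1 := h.wval f hf h0
          have h2 := R.mul_mem (h.wdiv f hf h0) (hu' _ h1)
          rwa [div_mul_div_cancel₀ (h.mon.ne _ h1)] at h2
        stab := h.stab
        triv := h.triv
        rat := fun σ hσ γ hγ n hn => by
          obtain ⟨ζ, -, h1⟩ := hEig γ hγ n hn σ hσ
          rw [h1, hn, mul_div_assoc, div_self (hψ0 γ hγ), mul_one]
          exact R.algebraMap_mem _ }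
  · rw [v.map_div (h.mon.ne γ hγ) (hψ0 γ hγ), h.mon.val γ hγ, hψv γ hγ, sub_self]

end ID

end Pool.Agent.TGL
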