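import Pool.Agent.Lib.TGL_h36.InvA

/-!
# TANK G, limit level, row 3.4a, part B: coordinates over the fixed field
-/

set_option autoImplicit false

namespace Pool.Agent.TGL

open Pool.Agent.TAO (OVal VPos val_add_vpos Ctx0)
open Pool.Agent.ALLO (locv)
open Pool.Agent.ALLh43 (Mon)
open Pool.Agent.LU1 (FracIs fixO mem_fixO)
open Pool.Agent.ALLZO (ALLZ_vpos_sum rO rO_vpos exists_reps fg_of_mul)
open Pool.Agent.ALL6 (L5Data vpos_sum)

universe u w

variable {k Ω : Type u} [Field k] [Field Ω] [Algebra k Ω]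
  {𝕂 : Type w} [Field 𝕂] [LinearOrder 𝕂] [IsStrictOrderedRing 𝕂]
  {F : IntermediateField k Ω}

namespace ID

variable {v w : OVal 𝕂 Ω} {Γ : AddSubgroup 𝕂} {χ : 𝕂 → Ω} {R : Subalgebra k Ω}
  {N : IntermediateField F Ω} {G : Subgroup (N ≃ₐ[F] N)}

/-- The exponents of the invariant monomials. -/
def ΓF (h : ID v w Γ χ R N G) : AddSubgroup 𝕂 where
  carrier := {γ | γ ∈ Γ ∧ χ γ ∈ fixO F N G}
  add_mem' := by
    rintro a b ⟨h1, h2⟩ ⟨h3, h4⟩
    exact ⟨Γ.add_mem h1 h3, by rw [h.mon.add a h1 b h3]; exact mul_mem h2 h4⟩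
  zero_mem' := ⟨Γ.zero_mem, by rw [h.mon.zero]; exact one_mem _⟩
  neg_mem' := by
    rintro a ⟨h1, h2⟩
    exact ⟨Γ.neg_mem h1, by rw [h.mon.neg h1]; exact inv_mem h2⟩

theorem mem_ΓF (h : ID v w Γ χ R N G) {γ : 𝕂} :
    γ ∈ h.ΓF ↔ γ ∈ Γ ∧ χ γ ∈ fixO F N G := Iff.rfl

theorem mem_fixO_iff {n : N} : (n : Ω) ∈ fixO F N G ↔ ∀ σ ∈ G, σ n = n := by
  rw [mem_fixO]
  constructor
  · rintro ⟨m, hm, h1⟩
    have : m = n := Subtype.ext hm
    rw [← this]
    exact h1
  · exact fun h1 => ⟨n, rfl, h1⟩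

theorem card_mem [FiniteDimensional F N] (h : ID v w Γ χ R N G) (hE : Eig (k := k) Γ χ G)
    {γ : 𝕂} (hγ : γ ∈ Γ) : (Nat.card G : 𝕂) * γ ∈ h.ΓF := by
  have h0 : (Nat.card G : 𝕂) * γ ∈ Γ := by
    rw [← nsmul_eq_mul]; exact Γ.nsmul_mem hγ _
  refine ⟨h0, ?_⟩
  rw [h.mon.nat_mul hγ, ← h.coe_X hγ, ← SubmonoidClass.coe_pow, mem_fixO_iff]
  intro σ hσ
  obtain ⟨ζ, hζ0, hζ⟩ := hE γ hγ (h.X hγ) rfl σ hσ
  have hkF : algebraMap k Ω ζ ∈ F := F.algebraMap_mem ζ
  let c : N := algebraMap F N ⟨algebraMap k Ω ζ, hkF⟩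
  have hc : σ (h.X hγ) = c * h.X hγ := Subtype.ext hζ
  have hpow : ∀ m : ℕ, (σ ^ m) (h.X hγ) = c ^ m * h.X hγ := by
    intro m
    induction m with
    | zero => rw [pow_zero, pow_zero, AlgEquiv.one_apply, one_mul]
    | succ m ih =>
      rw [pow_succ', AlgEquiv.mul_apply, ih, map_mul, map_pow, hc, pow_succ]
      have : σ c = c := σ.commutes _
      rw [this]
      ring
  have h1 : σ ^ Nat.card G = 1 := by
    have := pow_card_eq_one' (x := (⟨σ, hσ⟩ : G))
    exact congrArg (fun x : G => (x : N ≃ₐ[F] N)) this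
  have h2 := hpow (Nat.card G)
  rw [h1, AlgEquiv.one_apply] at h2
  have h3 : c ^ Nat.card G = 1 := by
    have h4 : (c ^ Nat.card G - 1) * h.X hγ = 0 := by
      rw [sub_mul, ← h2, one_mul, sub_self]
    exact sub_eq_zero.1 ((mul_eq_zero.1 h4).resolve_right (h.X_ne hγ))
  rw [map_pow, hc, mul_pow, h3, one_mul]

/-- The trace. -/
noncomputable def T1 [FiniteDimensional F N] (G : Subgroup (N ≃ₐ[F] N)) :
    N →ₗ[IntermediateField.fixedField G] IntermediateField.fixedField G :=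
  letI := Fintype.ofFinite G
  { toFun := fun b => ⟨∑ σ : G, (σ : N ≃ₐ[F] N) b,
      (IntermediateField.mem_fixedField_iff _ _).2 (by
        intro τ hτ
        rw [map_sum]
        refine Fintype.sum_equiv (Equiv.mulLeft (⟨τ, hτ⟩ : G)) _ _ fun σ => ?_
        rw [Equiv.coe_mulLeft, Subgroup.coe_mul, AlgEquiv.mul_apply])⟩
    map_add' := fun a b => Subtype.ext (by
      show ∑ σ : G, (σ : N ≃ₐ[F] N) (a + b) =
        ∑ σ : G, (σ : N ≃ₐ[F] N) a + ∑ σ : G, (σ : N ≃ₐ[F] N) b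
      rw [← Finset.sum_add_distrib]
      exact Finset.sum_congr rfl fun σ _ => map_add _ _ _)
    map_smul' := fun f b => Subtype.ext (by
      show ∑ σ : G, (σ : N ≃ₐ[F] N) ((f : N) * b) = (f : N) * ∑ σ : G, (σ : N ≃ₐ[F] N) b
      rw [Finset.mul_sum]
      refine Finset.sum_congr rfl fun σ _ => ?_
      rw [map_mul, (IntermediateField.mem_fixedField_iff _ _).1 f.2 _ σ.2]) }

theorem T1_apply [FiniteDimensional F N] (G : Subgroup (N ≃ₐ[F] N)) (b : N) :
    letI := Fintype.ofFinite G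
    ((T1 G b : IntermediateField.fixedField G) : N) = ∑ σ : G, (σ : N ≃ₐ[F] N) b := rfl

theorem T1_fix [FiniteDimensional F N] (G : Subgroup (N ≃ₐ[F] N)) {b : N}
    (hb : ∀ σ ∈ G, σ b = b) :
    ((T1 G b : IntermediateField.fixedField G) : N) = (Nat.card G : N) * b := by
  let _ := Fintype.ofFinite G
  rw [T1_apply, Finset.sum_congr rfl fun σ _ => hb _ (σ : G).2, Finset.sum_const,
    nsmul_eq_mul, Finset.card_univ, Nat.card_eq_fintype_card]

/-- A sum of conjugates stays in `R`. -/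
theorem T1_mem [FiniteDimensional F N] (h : ID v w Γ χ R N G) {b : N} (hb : (b : Ω) ∈ R) :
    (((T1 G b : IntermediateField.fixedField G) : N) : Ω) ∈ R := by
  let _ := Fintype.ofFinite G
  rw [T1_apply, AddSubmonoidClass.coe_finsetSum]
  exact R.sum_mem fun σ _ => h.stab _ (σ : G).2 b hb

/-- The trace is congruent to `|G|` times the element. -/
theorem T1_cong [FiniteDimensional F N] (h : ID v w Γ χ R N G) {b : N} (hb : w.Ge 0 (b : Ω)) :
    VPos w ((((T1 G b : IntermediateField.fixedField G) : N) : Ω) -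
      algebraMap k Ω (Nat.card G : k) * b) := by
  let _ := Fintype.ofFinite G
  have e : (((T1 G b : IntermediateField.fixedField G) : N) : Ω) -
      algebraMap k Ω (Nat.card G : k) * b =
      ∑ σ : G, ((((σ : N ≃ₐ[F] N) b : N) : Ω) - b) := by
    rw [T1_apply, AddSubmonoidClass.coe_finsetSum, Finset.sum_sub_distrib]
    congr 1
    rw [Finset.sum_const, Finset.card_univ, nsmul_eq_mul, Nat.card_eq_fintype_card, map_natCast]
  rw [e]
  exact ALLZ_vpos_sum _ _ fun σ _ => h.triv' (σ : G).2 hb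

/-- The values of the invariants. -/
theorem val_fix [FiniteDimensional F N] (h : ID v w Γ χ R N G) (hE : Eig (k := k) Γ χ G)
    {f : Ω} (hf : f ∈ fixO F N G) (h0 : f ≠ 0) : w f ∈ h.ΓF := by
  obtain ⟨n, rfl, hn⟩ := (mem_fixO F N G f).1 hf
  obtain ⟨h1, -⟩ := h.split n.2 h0
  refine ⟨h1, ?_⟩
  rw [← h.coe_X h1, mem_fixO_iff]
  intro σ hσ
  obtain ⟨ζ, hζ0, hζ⟩ := hE _ h1 (h.X h1) rfl σ hσ
  have hX0 := h.X_ne h1
  have hn0 : n ≠ 0 := coe_ne.1 h0
  -- `b = n / χ`
  let b : N := n / h.X h1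
  have hbw : w (b : Ω) = 0 := by
    show w ((n : Ω) / χ (w n)) = 0
    rw [w.map_div h0 (h.mon.ne _ h1), h.wχ _ h1, sub_self]
  have hb0 : (b : Ω) ≠ 0 := coe_ne.2 (div_ne_zero hn0 hX0)
  have h2 := h.triv' hσ (n := b) (fun _ => by rw [hbw])
  have h3 : ((σ b : N) : Ω) = (algebraMap k Ω ζ)⁻¹ * b := by
    have h4 : σ b = n / σ (h.X h1) := by
      show σ (n / h.X h1) = _
      rw [map_div₀, hn σ hσ]
    rw [h4]
    show (n : Ω) / ((σ (h.X h1) : N) : Ω) = (algebraMap k Ω ζ)⁻¹ * ((n : Ω) / χ (w n))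
    rw [hζ, coe_X]
    have := (_root_.map_ne_zero (algebraMap k Ω)).2 hζ0
    have := h.mon.ne _ h1
    field_simp
  have h5 : VPos w (algebraMap k Ω (ζ⁻¹ - 1)) := by
    have h6 : algebraMap k Ω (ζ⁻¹ - 1) = (((σ b : N) : Ω) - b) * (b : Ω)⁻¹ := by
      rw [h3, _root_.map_sub, map_inv₀, _root_.map_one]
      field_simp
    rw [h6]
    refine VPos.mul h2 fun _ => ?_
    rw [w.map_inv hb0, hbw, neg_zero]
  have h6 := h.const_zero h5
  have h7 : ζ = 1 := by
    have := sub_eq_zero.1 h6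
    rw [inv_eq_one] at this
    exact this
  apply Subtype.ext
  rw [hζ, h7, _root_.map_one, one_mul]

/-- The data of row L5. -/
theorem l5 [FiniteDimensional F N] (h : ID v w Γ χ R N G) (hE : Eig (k := k) Γ χ G)
    (hG : (Nat.card G : k) ≠ 0) {m : ℕ} {c : Fin m → 𝕂} (hcΓ : ∀ i, c i ∈ Γ)
    (hcd : ∀ i j, c i - c j ∈ h.ΓF → i = j) (hcc : ∀ γ ∈ Γ, ∃ i, γ - c i ∈ h.ΓF) :
    L5Data (rO w (algebraMap N Ω)) (fun i => h.X (hcΓ i)) h.ΓF (T1 G)
      (Nat.card G : IntermediateField.fixedField G) := by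
  classical
  have hρΩ : (((Nat.card G : IntermediateField.fixedField G) : N) : Ω) =
      algebraMap k Ω (Nat.card G : k) := by
    rw [map_natCast]
    push_cast
    rfl
  have hρ0 : (((Nat.card G : IntermediateField.fixedField G) : N) : Ω) ≠ 0 := by
    rw [hρΩ]; exact (_root_.map_ne_zero _).2 hG
  have hneF : ∀ x : IntermediateField.fixedField G, x ≠ 0 → ((x : N) : Ω) ≠ 0 := by
    intro x hx h0
    exact hx (Subtype.ext (Subtype.ext h0))
  have hfixG : ∀ b : IntermediateField.fixedField G, ∀ σ ∈ G, σ (b : N) = b := fun b =>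
    (IntermediateField.mem_fixedField_iff _ _).1 b.2
  exact
    { ρ_ne := fun h0 => hρ0 (by rw [h0]; rfl)
      ρ_val := by
        show w (((Nat.card G : IntermediateField.fixedField G) : N) : Ω) = 0
        rw [hρΩ, h.const hG]
      T_alg := fun f => Subtype.ext (by
        show ((T1 G (f : N) : IntermediateField.fixedField G) : N) = _
        rw [T1_fix G (hfixG f)]
        push_cast
        rfl)
      T_ge := by
        intro b hb h0
        let _ := Fintype.ofFinite G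
        have h1 : (rO w (algebraMap N Ω)).Ge (w (b : Ω)) (∑ σ : G, (σ : N ≃ₐ[F] N) b) := by
          refine OVal.Ge.sum _ _ fun σ _ _ => ?_
          exact (h.winv (σ : G).2 hb).ge
        exact h1 h0
      T_pos := by
        intro b hb
        let _ := Fintype.ofFinite G
        by_cases hb0 : b = 0
        · rw [hb0, map_zero, map_zero]; exact TAO.VPos.zero
        have h1 : VPos (rO w (algebraMap N Ω)) (∑ σ : G, (σ : N ≃ₐ[F] N) b) := by
          refine vpos_sum _ _ fun σ _ _ => ?_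
          exact lt_of_lt_of_eq (hb hb0) (h.winv (σ : G).2 hb0).symm
        intro h0
        exact h1 h0
      res := by
        intro b hb hbw
        have hb0 : (b : Ω) ≠ 0 := coe_ne.2 hb
        have hbw' : w (b : Ω) = 0 := hbw
        obtain ⟨h1, x, hx, z, hz, hx0, hz0, hwx, hwz, hbx⟩ := h.split b.2 hb0
        rw [hbw', h.mon.zero, one_mul] at hbx
        let x' : N := ⟨x, h.le x hx⟩
        let z' : N := ⟨z, h.le z hz⟩
        have hTx := h.T1_cong (b := x') (h.wR x hx)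
        have hTz := h.T1_cong (b := z') (h.wR z hz)
        set tx : Ω := (((T1 G x' : IntermediateField.fixedField G) : N) : Ω) with htx
        set tz : Ω := (((T1 G z' : IntermediateField.fixedField G) : N) : Ω) with htz
        have hρz : algebraMap k Ω (Nat.card G : k) * z ≠ 0 ∧
            w (algebraMap k Ω (Nat.card G : k) * z) = 0 := by
          have h0 := (_root_.map_ne_zero (algebraMap k Ω)).2 hG
          exact ⟨mul_ne_zero h0 hz0, by rw [w.map_mul h0 hz0, h.const hG, hwz, add_zero]⟩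
        have htz0 := val_add_vpos (v := w) hρz.1 hρz.2 hTz
        rw [show algebraMap k Ω (Nat.card G : k) * z + (tz - algebraMap k Ω (Nat.card G : k) *
          ((z' : N) : Ω)) = tz by ring] at htz0
        refine ⟨T1 G x' / T1 G z', ?_⟩
        have e : algebraMap N Ω (b - algebraMap (IntermediateField.fixedField G) N
            (T1 G x' / T1 G z')) = (z * -(tx - algebraMap k Ω (Nat.card G : k) * x) +
            x * (tz - algebraMap k Ω (Nat.card G : k) * z)) / (z * tz) := by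
          have e1 : algebraMap N Ω (b - algebraMap (IntermediateField.fixedField G) N
            (T1 G x' / T1 G z')) = (b : Ω) - tx / tz := rfl
          rw [e1, hbx]
          have := htz0.1
          field_simp
          ring
        intro h0
        have h2 : VPos w ((z * -(tx - algebraMap k Ω (Nat.card G : k) * x) +
            x * (tz - algebraMap k Ω (Nat.card G : k) * z)) / (z * tz)) := by
          rw [div_eq_mul_inv]
          refine VPos.mul ((VPos.mul' (h.wR z hz) hTx.neg).add (VPos.mul' (h.wR x hx) hTz)) ?_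
          intro _
          rw [w.map_inv (mul_ne_zero hz0 htz0.1), w.map_mul hz0 htz0.1, hwz, htz0.2, add_zero,
            neg_zero]
        rw [← e] at h2
        exact h2 (coe_ne.2 h0)
      val := fun f hf => h.val_fix hE (mem_fixO_iff.2 (hfixG f)) (hneF f hf)
      val' := by
        intro γ hγ
        refine ⟨⟨h.X hγ.1, (IntermediateField.mem_fixedField_iff _ _).2
          (mem_fixO_iff.1 hγ.2)⟩, ?_, h.wχ γ hγ.1⟩
        intro h0
        exact h.X_ne hγ.1 (congrArg Subtype.val h0)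
      a_ne := fun i => h.X_ne (hcΓ i)
      a_dist := by
        intro i j hij
        apply hcd
        have h1 : w (χ (c i)) - w (χ (c j)) ∈ h.ΓF := hij
        rwa [h.wχ _ (hcΓ i), h.wχ _ (hcΓ j)] at h1
      a_cov := by
        intro b hb
        obtain ⟨h1, -⟩ := h.split b.2 (coe_ne.2 hb)
        obtain ⟨i, hi⟩ := hcc _ h1
        refine ⟨i, ?_⟩
        show w (b : Ω) - w (χ (c i)) ∈ h.ΓF
        rwa [h.wχ _ (hcΓ i)] }

/-- `R[1/χ]` inside a subfield. -/
def loc1 (h : ID v w Γ χ R N G) {E : Type*} [Field E] (φ : E →+* Ω) : Subring E where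
  carrier := {b | ∃ γ ∈ Γ, χ γ * φ b ∈ R}
  mul_mem' := by
    rintro a b ⟨γ, hγ, h1⟩ ⟨δ, hδ, h2⟩
    refine ⟨γ + δ, Γ.add_mem hγ hδ, ?_⟩
    rw [h.mon.add γ hγ δ hδ, map_mul, mul_mul_mul_comm]
    exact R.mul_mem h1 h2
  one_mem' := ⟨0, Γ.zero_mem, by rw [h.mon.zero, map_one, one_mul]; exact R.one_mem⟩
  add_mem' := by
    rintro a b ⟨γ, hγ, h1⟩ ⟨δ, hδ, h2⟩
    have key : ∀ {γ m : 𝕂} {x : Ω}, γ ∈ Γ → m ∈ Γ → γ ≤ m → χ γ * x ∈ R → χ m * x ∈ R := by
      intro γ m x hγ hm hle' hx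
      have h1 : χ m = χ (m - γ) * χ γ := by
        rw [← h.mon.add _ (Γ.sub_mem hm hγ) _ hγ, sub_add_cancel]
      rw [h1, mul_assoc]
      exact R.mul_mem (h.χ_mem _ (Γ.sub_mem hm hγ) (by linarith)) hx
    rcases le_total γ δ with h0 | h0
    · exact ⟨δ, hδ, by rw [map_add, mul_add]; exact R.add_mem (key hγ hδ h0 h1) h2⟩
    · exact ⟨γ, hγ, by rw [map_add, mul_add]; exact R.add_mem h1 (key hδ hγ h0 h2)⟩
  zero_mem' := ⟨0, Γ.zero_mem, by rw [map_zero, mul_zero]; exact R.zero_mem⟩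
  neg_mem' := by
    rintro a ⟨γ, hγ, h1⟩
    exact ⟨γ, hγ, by rw [map_neg, mul_neg]; exact R.neg_mem h1⟩

/-- Every element of `R` is a combination of monomials with coefficients in the invariants. -/
theorem coord [FiniteDimensional F N] (h : ID v w Γ χ R N G) (hfg : Γ.FG)
    (hE : Eig (k := k) Γ χ G) (hG : (Nat.card G : k) ≠ 0) {b : Ω} (hb : b ∈ R) :
    ∃ (m : ℕ) (g : Fin m → Ω) (γ : Fin m → 𝕂), (∀ i, g i ∈ R ∧ g i ∈ fixO F N G ∧ γ i ∈ Γ ∧
      0 ≤ γ i) ∧ b = ∑ i, g i * χ (γ i) := by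
  classical
  have hΓle : ∀ γ ∈ h.ΓF, γ ∈ Γ := fun γ hγ => hγ.1
  have hFfg : h.ΓF.FG := fg_of_mul hfg (e := 1) one_pos fun γ hγ => by
    rw [Nat.cast_one, one_mul]; exact hγ.1
  obtain ⟨m, c, hcΓ, hcd, hcc⟩ := exists_reps (Γ := h.ΓF) (Γ' := Γ) hFfg
    (Nat.card_pos (α := G)) (fun γ hγ => h.card_mem hE hγ)
  have key := h.l5 hE hG hcΓ hcd hcc
  have hneF : ∀ x : IntermediateField.fixedField G, x ≠ 0 → ((x : N) : Ω) ≠ 0 := by
    intro x hx h0
    exact hx (Subtype.ext (Subtype.ext h0))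
  have hfixG : ∀ b : IntermediateField.fixedField G, ∀ σ ∈ G, σ (b : N) = b := fun b =>
    (IntermediateField.mem_fixedField_iff _ _).1 b.2
  let bN : N := ⟨b, h.le b hb⟩
  obtain ⟨f, hf⟩ := key.span bN
  let φF : IntermediateField.fixedField G →+* Ω := (algebraMap N Ω).comp
    (algebraMap (IntermediateField.fixedField G) N)
  have hρΩ : φF (Nat.card G : IntermediateField.fixedField G) =
      algebraMap k Ω (Nat.card G : k) := by
    rw [map_natCast, map_natCast]
  have hρ0 : φF (Nat.card G : IntermediateField.fixedField G) ≠ 0 := by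
    rw [hρΩ]; exact (_root_.map_ne_zero _).2 hG
  have hv0 : v (algebraMap k Ω (Nat.card G : k)) = 0 := by
    have h0 := (_root_.map_ne_zero (algebraMap k Ω)).2 hG
    have h1 := h.nonneg _ (R.algebraMap_mem (Nat.card G : k)) h0
    have h2 := h.nonneg _ (R.algebraMap_mem (Nat.card G : k)⁻¹)
      ((_root_.map_ne_zero (algebraMap k Ω)).2 (inv_ne_zero hG))
    rw [map_inv₀, v.map_inv h0] at h2
    linarith
  have hfR := key.coord_mem (h.loc1 (algebraMap N Ω)) (h.loc1 φF)
    (by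
      rintro x ⟨γ, hγ, hx⟩
      refine ⟨γ, hγ, ?_⟩
      let _ := Fintype.ofFinite G
      have e : χ γ * φF (T1 G x) = ∑ σ : G, χ γ * (((σ : N ≃ₐ[F] N) x : N) : Ω) := by
        rw [← Finset.mul_sum]
        congr 1
        show (((T1 G x : IntermediateField.fixedField G) : N) : Ω) = _
        rw [T1_apply, AddSubmonoidClass.coe_finsetSum]
      rw [e]
      refine R.sum_mem fun σ _ => ?_
      obtain ⟨ζ, hζ0, hζ⟩ := hE γ hγ (h.X hγ) rfl σ σ.2
      have h1 := h.stab σ σ.2 (h.X hγ * x) hx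
      rw [map_mul, MulMemClass.coe_mul, hζ, coe_X] at h1
      have h2 : χ γ * (((σ : N ≃ₐ[F] N) x : N) : Ω) = algebraMap k Ω ζ⁻¹ *
          (algebraMap k Ω ζ * χ γ * (((σ : N ≃ₐ[F] N) x : N) : Ω)) := by
        have := (_root_.map_ne_zero (algebraMap k Ω)).2 hζ0
        rw [map_inv₀]
        field_simp
      rw [h2]
      exact R.mul_mem (R.algebraMap_mem _) h1)
    (fun i => ⟨-c i, Γ.neg_mem (hcΓ i), by
      show χ (-c i) * χ (c i) ∈ R
      rw [← h.mon.add _ (Γ.neg_mem (hcΓ i)) _ (hcΓ i), neg_add_cancel, h.mon.zero]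
      exact R.one_mem⟩)
    (fun i => ⟨c i, hcΓ i, by
      rw [map_inv₀]
      show χ (c i) * (χ (c i))⁻¹ ∈ R
      rw [mul_inv_cancel₀ (h.mon.ne _ (hcΓ i))]
      exact R.one_mem⟩)
    (by
      intro x hx hxp
      have h1 : VPos w (φF (x - (Nat.card G : IntermediateField.fixedField G) ^
          Fintype.card (Fin m))) := (rO_vpos (w := w) (φ := algebraMap N Ω)).1 hxp
      rw [map_sub, map_pow, hρΩ] at h1
      set ρ : Ω := algebraMap k Ω (Nat.card G : k) with hρdef
      have hρne : ρ ≠ 0 := (_root_.map_ne_zero _).2 hG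
      have h3 := val_add_vpos (v := w) (pow_ne_zero (Fintype.card (Fin m)) hρne)
        (by rw [w.map_pow hρne]; exact mul_eq_zero_of_right _ (h.const hG)) h1
      rw [add_sub_cancel] at h3
      obtain ⟨γ, hγ, hγx⟩ := hx
      have h4 : φF x ∈ R := h.cut hγ hγx h3.1 (by rw [h3.2])
      have hρR : ρ ^ Fintype.card (Fin m) ∈ R := R.pow_mem (R.algebraMap_mem _) _
      have h7 : VPos v (φF x - ρ ^ Fintype.card (Fin m)) := h.pos (R.sub_mem h4 hρR) h1
      have h8 := val_add_vpos (v := v) (pow_ne_zero (Fintype.card (Fin m)) hρne)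
        (by rw [v.map_pow hρne, hv0, mul_zero]) h7
      rw [add_sub_cancel] at h8
      refine ⟨0, Γ.zero_mem, ?_⟩
      rw [h.mon.zero, one_mul, map_inv₀]
      exact h.loc _ h4 h8.1 h8.2)
    f (by
      rw [← hf]
      exact ⟨0, Γ.zero_mem, by rw [h.mon.zero, one_mul]; exact hb⟩)
  have hfΩ : b = ∑ i, ((f i : N) : Ω) * χ (c i) := by
    have h1 := congrArg (algebraMap N Ω) hf
    rw [map_sum] at h1
    exact h1
  have hval : ∀ i, f i ≠ 0 → w ((f i : N) : Ω) ∈ h.ΓF := fun i hi =>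
    h.val_fix hE (mem_fixO_iff.2 (hfixG (f i))) (hneF _ hi)
  refine ⟨m, fun i => if f i = 0 then 0 else ((f i : N) : Ω) / χ (w ((f i : N) : Ω)),
    fun i => if f i = 0 then 0 else w ((f i : N) : Ω) + c i, fun i => ?_, ?_⟩
  · by_cases hi : f i = 0
    · simp only [hi, if_true]
      exact ⟨R.zero_mem, zero_mem _, Γ.zero_mem, le_rfl⟩
    · simp only [hi, if_false]
      have h0 := hneF _ hi
      have h1 := hval i hi
      have hχ0 := h.mon.ne _ h1.1
      have h2 : ((f i : N) : Ω) / χ (w ((f i : N) : Ω)) ∈ R := by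
        obtain ⟨γ, hγ, hγf⟩ := hfR i
        refine h.cut (γ := γ + w ((f i : N) : Ω)) (Γ.add_mem hγ h1.1) ?_ (div_ne_zero h0 hχ0) ?_
        · rw [h.mon.add _ hγ _ h1.1]
          have e : χ γ * χ (w ((f i : N) : Ω)) * (((f i : N) : Ω) / χ (w ((f i : N) : Ω))) =
              χ γ * ((f i : N) : Ω) := by
            field_simp
          rw [e]
          exact hγf
        · rw [w.map_div h0 hχ0, h.wχ _ h1.1, sub_self]
      refine ⟨h2, div_mem (mem_fixO_iff.2 (hfixG (f i))) h1.2, Γ.add_mem h1.1 (hcΓ i), ?_⟩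
      have h3 := key.ge Finset.univ f ⟨i, Finset.mem_univ i, hi⟩
      rw [← hf] at h3
      have h4 := h3.2 i (Finset.mem_univ i) hi
      have h5 : w b ≤ w (((f i : N) : Ω) * χ (c i)) := h4
      rw [w.map_mul h0 (h.mon.ne _ (hcΓ i)), h.wχ _ (hcΓ i)] at h5
      exact (h.wR b hb (coe_ne.2 h3.1)).trans h5
  · rw [hfΩ]
    refine Finset.sum_congr rfl fun i _ => ?_
    by_cases hi : f i = 0
    · simp only [hi, if_true]
      rw [ZeroMemClass.coe_zero, ZeroMemClass.coe_zero, zero_mul, zero_mul]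
    · simp only [hi, if_false]
      have h1 := hval i hi
      rw [h.mon.add _ h1.1 _ (hcΓ i)]
      have := h.mon.ne _ h1.1
      field_simp

end ID

end Pool.Agent.TGL
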