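import Pool.Agent.Lib.TGL_h36.InvB
import Pool.Agent.Lib.TGL.Defs

/-!
# TANK G, limit level, row 3.4a, part C: the frame of the invariants
-/

set_option autoImplicit false

namespace Pool.Agent.TGL

open Pool.Agent.TAO (OVal VPos val_add_vpos Ctx0)
open Pool.Agent.ALLO (locv)
open Pool.Agent.ALLh43 (Mon)
open Pool.Agent.LU1 (FracIs fixO mem_fixO)
open Pool.Agent.ALLZO (ALLZ_vpos_sum fg_of_mul le_locv locv_mono locv_le locv_adjoin_le)

universe u w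

variable {k Ω : Type u} [Field k] [Field Ω] [Algebra k Ω]
  {𝕂 : Type w} [Field 𝕂] [LinearOrder 𝕂] [IsStrictOrderedRing 𝕂]
  {F : IntermediateField k Ω}

/-! ### Change of the monomials -/

/-- Change of the monomials of a limit frame by units. -/
theorem LF.chChi {v : OVal 𝕂 Ω} {r D : ℕ} (B : LF k v r D) (χ' : 𝕂 → Ω)
    (hne : ∀ γ ∈ B.Γ, χ' γ ≠ 0)
    (hadd : ∀ γ ∈ B.Γ, ∀ δ ∈ B.Γ, χ' (γ + δ) = χ' γ * χ' δ)
    (hun : ∀ γ ∈ B.Γ, B.Un (B.χ γ / χ' γ)) :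
    ∃ B' : LF k v r D, B'.R = B.R ∧ B'.Γ = B.Γ ∧ B'.χ = χ' ∧ B'.y = B.y := by
  classical
  obtain ⟨F₀, hF₀⟩ := B.fgen
  obtain ⟨S, hS⟩ := B.fg
  have uinv : ∀ {f : Ω}, B.Un f → B.Un f⁻¹ := fun {f} h =>
    ⟨B.loc f h.1 h.2.1 h.2.2, inv_ne_zero h.2.1, by rw [v.map_inv h.2.1, h.2.2, neg_zero]⟩
  set ε : 𝕂 → Ω := fun γ => B.χ γ / χ' γ with hε
  have hχ : ∀ γ ∈ B.Γ, B.χ γ = χ' γ * ε γ := by
    intro γ hγ
    simp only [hε]
    rw [mul_div_cancel₀ _ (hne γ hγ)]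
  have hχ' : ∀ γ ∈ B.Γ, χ' γ = B.χ γ * (ε γ)⁻¹ := by
    intro γ hγ
    rw [hχ γ hγ, mul_inv_cancel_right₀ (hun γ hγ).2.1]
  have hεadd : ∀ γ ∈ B.Γ, ∀ δ ∈ B.Γ, ε (γ + δ) = ε γ * ε δ := by
    intro γ hγ δ hδ
    simp only [hε]
    rw [B.χ_add γ hγ δ hδ, hadd γ hγ δ hδ, mul_div_mul_comm]
  have hε0 : ε 0 = 1 := by
    have h1 := hεadd 0 B.Γ.zero_mem 0 B.Γ.zero_mem
    rw [add_zero] at h1
    exact (mul_right_cancel₀ (hun 0 B.Γ.zero_mem).2.1 (by rw [one_mul]; exact h1)).symm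
  have hεn : ∀ δ ∈ B.Γ, ε (-δ) = (ε δ)⁻¹ := by
    intro δ hδ
    have h2 := hεadd δ hδ (-δ) (B.Γ.neg_mem hδ)
    rw [add_neg_cancel, hε0] at h2
    exact eq_inv_of_mul_eq_one_right h2.symm
  let T : Finset Ω := F₀ ∪ (S.image ε ∪ S.image fun γ => (ε γ)⁻¹)
  set R' : Subalgebra k Ω := locv v (Algebra.adjoin k ((T : Set Ω) ∪ χ' '' {γ | γ ∈ B.Γ ∧ 0 ≤ γ}))
    with hR'
  have hTR' : ∀ t ∈ T, t ∈ R' := fun t ht =>
    le_locv _ (Algebra.subset_adjoin (Or.inl (Finset.mem_coe.2 ht)))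
  have hχR' : ∀ γ ∈ B.Γ, 0 ≤ γ → χ' γ ∈ R' := fun γ hγ h0 =>
    le_locv _ (Algebra.subset_adjoin (Or.inr ⟨γ, ⟨hγ, h0⟩, rfl⟩))
  have hεR' : ∀ γ ∈ B.Γ, ε γ ∈ R' ∧ ε (-γ) ∈ R' := by
    intro γ hγ
    have h1 : γ ∈ AddSubgroup.closure (S : Set 𝕂) := by rw [hS]; exact hγ
    have key : ∀ γ ∈ AddSubgroup.closure (S : Set 𝕂), ε γ ∈ R' ∧ ε (-γ) ∈ R' := by
      intro γ hγ
      induction hγ using AddSubgroup.closure_induction with
      | mem x hx =>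
        have hxΓ : x ∈ B.Γ := by rw [← hS]; exact AddSubgroup.subset_closure hx
        have hx' : x ∈ S := hx
        refine ⟨hTR' _ ?_, ?_⟩
        · exact Finset.mem_union_right _ (Finset.mem_union_left _ (Finset.mem_image_of_mem _ hx'))
        · rw [hεn x hxΓ]
          exact hTR' _ (Finset.mem_union_right _ (Finset.mem_union_right _
            (Finset.mem_image_of_mem (fun γ => (ε γ)⁻¹) hx')))
      | zero =>
        rw [neg_zero, hε0]
        exact ⟨R'.one_mem, R'.one_mem⟩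
      | add x y hx hy hx' hy' =>
        have hxΓ : x ∈ B.Γ := by rw [← hS]; exact hx
        have hyΓ : y ∈ B.Γ := by rw [← hS]; exact hy
        rw [hεadd x hxΓ y hyΓ, neg_add, hεadd _ (B.Γ.neg_mem hxΓ) _ (B.Γ.neg_mem hyΓ)]
        exact ⟨R'.mul_mem hx'.1 hy'.1, R'.mul_mem hx'.2 hy'.2⟩
      | neg x _ hx =>
        rw [neg_neg]
        exact ⟨hx.2, hx.1⟩
    exact key γ h1
  have hmem' : ∀ γ ∈ B.Γ, 0 ≤ γ → χ' γ ∈ B.R := fun γ hγ h0 => by
    rw [hχ' γ hγ]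
    exact B.R.mul_mem (B.χ_mem γ hγ h0) (uinv (hun γ hγ)).1
  have hBR' : B.R = R' := by
    apply le_antisymm
    · rw [hF₀]
      refine locv_adjoin_le ?_
      rintro f (hf | ⟨γ, ⟨hγ, h0⟩, rfl⟩)
      · exact hTR' _ (Finset.mem_union_left _ hf)
      · rw [hχ γ hγ]
        exact R'.mul_mem (hχR' γ hγ h0) (hεR' γ hγ).1
    · refine locv_le (Algebra.adjoin_le ?_) B.loc
      rintro f (hf | ⟨γ, ⟨hγ, h0⟩, rfl⟩)
      · rcases Finset.mem_union.1 (Finset.mem_coe.1 hf) with hf | hf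
        · rw [hF₀]
          exact le_locv _ (Algebra.subset_adjoin (Or.inl hf))
        · rcases Finset.mem_union.1 hf with hf | hf
          · obtain ⟨γ, hγ, rfl⟩ := Finset.mem_image.1 hf
            exact (hun γ (by rw [← hS]; exact AddSubgroup.subset_closure hγ)).1
          · obtain ⟨γ, hγ, rfl⟩ := Finset.mem_image.1 hf
            exact (uinv (hun γ (by rw [← hS]; exact AddSubgroup.subset_closure hγ))).1
      · exact hmem' γ hγ h0
  refine ⟨{ Γ := B.Γ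
            fg := B.fg
            rk := B.rk
            χ := χ'
            χ_ne := hne
            χ_add := hadd
            χ_val := fun γ hγ => by
              rw [hχ' γ hγ, v.map_mul (B.χ_ne γ hγ) (inv_ne_zero (hun γ hγ).2.1),
                v.map_inv (hun γ hγ).2.1, (hun γ hγ).2.2, neg_zero, add_zero, B.χ_val γ hγ]
            y := B.y
            y_ne := B.y_ne
            y_pos := B.y_pos
            R := B.R
            nonneg := B.nonneg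
            loc := B.loc
            χ_mem := hmem'
            y_mem := B.y_mem
            fgen := ⟨T, hBR'⟩
            gen := ?_ }, rfl, rfl, rfl, rfl⟩
  intro f hf hv
  obtain ⟨γ, hγ, a, ha, h0, b, hb, rfl⟩ := B.gen f hf hv
  refine ⟨γ, hγ, ε γ * a, B.R.mul_mem (hun γ hγ).1 ha, h0.imp id fun h => by rw [h, mul_zero],
    b, hb, by rw [hχ γ hγ]; ring⟩

namespace ID

variable {v w : OVal 𝕂 Ω} {Γ : AddSubgroup 𝕂} {χ : 𝕂 → Ω} {R : Subalgebra k Ω}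
  {N : IntermediateField F Ω} {G : Subgroup (N ≃ₐ[F] N)}

/-! ### The average -/

/-- The average over the group. -/
noncomputable def avg [FiniteDimensional F N] (G : Subgroup (N ≃ₐ[F] N)) (b : N) : Ω :=
  algebraMap k Ω (Nat.card G : k)⁻¹ * (((T1 G b : IntermediateField.fixedField G) : N) : Ω)

theorem avg_zero [FiniteDimensional F N] : avg G (0 : N) = 0 := by
  rw [avg, map_zero]
  push_cast
  rw [mul_zero]

theorem avg_add [FiniteDimensional F N] (a b : N) : avg G (a + b) = avg G a + avg G b := by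
  rw [avg, avg, avg, map_add]
  push_cast
  rw [mul_add]

theorem avg_mul [FiniteDimensional F N] {f : N} (hf : ∀ σ ∈ G, σ f = f) (b : N) :
    avg G (f * b) = f * avg G b := by
  let f' : IntermediateField.fixedField G :=
    ⟨f, (IntermediateField.mem_fixedField_iff _ _).2 hf⟩
  have h1 : T1 G (f * b) = f' * T1 G b := (T1 G).map_smul f' b
  rw [avg, avg, h1]
  push_cast
  ring

theorem avg_fix [FiniteDimensional F N] (hG : (Nat.card G : k) ≠ 0) {f : N}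
    (hf : ∀ σ ∈ G, σ f = f) : avg G f = f := by
  have h0 : algebraMap k Ω (Nat.card G : k) ≠ 0 := (_root_.map_ne_zero _).2 hG
  rw [avg, T1_fix G hf, MulMemClass.coe_mul, map_inv₀]
  have h1 : (((Nat.card G : N) : N) : Ω) = algebraMap k Ω (Nat.card G : k) := by
    rw [map_natCast]
    push_cast
    rfl
  rw [h1, ← mul_assoc, inv_mul_cancel₀ h0, one_mul]

theorem avg_mem_fixO [FiniteDimensional F N] (b : N) : avg G b ∈ fixO F N G := by
  refine mul_mem ((fixO F N G).algebraMap_mem _) ?_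
  rw [mem_fixO_iff]
  exact (IntermediateField.mem_fixedField_iff _ _).1 (T1 G b).2

theorem avg_mem [FiniteDimensional F N] (h : ID v w Γ χ R N G) {b : N} (hb : (b : Ω) ∈ R) :
    avg G b ∈ R := R.mul_mem (R.algebraMap_mem _) (h.T1_mem hb)

theorem avg_cong [FiniteDimensional F N] (h : ID v w Γ χ R N G) (hG : (Nat.card G : k) ≠ 0)
    {b : N} (hb : w.Ge 0 (b : Ω)) : VPos w (avg G b - b) := by
  have h1 := h.T1_cong hb
  have e : avg G b - b = algebraMap k Ω (Nat.card G : k)⁻¹ *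
      ((((T1 G b : IntermediateField.fixedField G) : N) : Ω) -
        algebraMap k Ω (Nat.card G : k) * b) := by
    rw [avg, mul_sub, ← mul_assoc, ← _root_.map_mul, inv_mul_cancel₀ hG, _root_.map_one, one_mul]
  rw [e]
  exact VPos.mul' (h.wR _ (R.algebraMap_mem _)) h1

/-- The average of a monomial. -/
theorem avg_X [FiniteDimensional F N] (h : ID v w Γ χ R N G) (hE : Eig (k := k) Γ χ G)
    (hG : (Nat.card G : k) ≠ 0) {γ : 𝕂} (hγ : γ ∈ Γ) :
    avg G (h.X hγ) = 0 ∨ (γ ∈ h.ΓF ∧ avg G (h.X hγ) = χ γ) := by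
  by_cases hF : γ ∈ h.ΓF
  · right
    refine ⟨hF, ?_⟩
    rw [avg_fix hG (mem_fixO_iff.1 hF.2), coe_X]
  · left
    by_contra hne
    apply hF
    let _ := Fintype.ofFinite G
    choose ζ hζ0 hζ using fun σ : G => hE γ hγ (h.X hγ) rfl σ σ.2
    have h1 : avg G (h.X hγ) = algebraMap k Ω ((Nat.card G : k)⁻¹ * ∑ σ : G, ζ σ) * χ γ := by
      rw [avg, T1_apply, AddSubmonoidClass.coe_finsetSum, Finset.sum_congr rfl fun σ _ => hζ σ,
        ← Finset.sum_mul, _root_.map_mul, map_sum, coe_X, mul_assoc]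
    have h2 : algebraMap k Ω ((Nat.card G : k)⁻¹ * ∑ σ : G, ζ σ) ≠ 0 := by
      intro h0
      rw [h0, zero_mul] at h1
      exact hne h1
    refine ⟨hγ, ?_⟩
    have h3 : χ γ = (algebraMap k Ω ((Nat.card G : k)⁻¹ * ∑ σ : G, ζ σ))⁻¹ *
        avg G (h.X hγ) := by
      rw [h1, ← mul_assoc, inv_mul_cancel₀ h2, one_mul]
    rw [h3]
    exact mul_mem (inv_mem ((fixO F N G).algebraMap_mem _)) (avg_mem_fixO _)

/-- The averages of the elements of the algebra generated by invariants and monomials. -/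
theorem avg_adjoin [FiniteDimensional F N] (h : ID v w Γ χ R N G) (hE : Eig (k := k) Γ χ G)
    (hG : (Nat.card G : k) ≠ 0) (S : Set Ω) (hS : ∀ s ∈ S, s ∈ fixO F N G) {a : Ω}
    (ha : a ∈ Algebra.adjoin k (S ∪ χ '' {γ | γ ∈ Γ ∧ 0 ≤ γ})) :
    ∃ n : N, (n : Ω) = a ∧
      avg G n ∈ Algebra.adjoin k (S ∪ χ '' {γ | γ ∈ h.ΓF ∧ 0 ≤ γ}) := by
  set A := Algebra.adjoin k (S ∪ χ '' {γ | γ ∈ h.ΓF ∧ 0 ≤ γ}) with hA
  have ha' : a ∈ (Algebra.adjoin k (S ∪ χ '' {γ | γ ∈ Γ ∧ 0 ≤ γ})).toSubmodule := ha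
  rw [Algebra.adjoin_eq_span] at ha'
  clear ha
  let X : Submonoid Ω :=
    { carrier := χ '' {γ | γ ∈ Γ ∧ 0 ≤ γ}
      mul_mem' := by
        rintro _ _ ⟨γ, ⟨hγ, h0⟩, rfl⟩ ⟨δ, ⟨hδ, h1⟩, rfl⟩
        exact ⟨γ + δ, ⟨Γ.add_mem hγ hδ, add_nonneg h0 h1⟩, h.mon.add γ hγ δ hδ⟩
      one_mem' := ⟨0, ⟨Γ.zero_mem, le_rfl⟩, h.mon.zero⟩ }
  have hX : Submonoid.closure (χ '' {γ | γ ∈ Γ ∧ 0 ≤ γ}) = X := Submonoid.closure_eq X
  induction ha' using Submodule.span_induction with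
  | mem x hx =>
    have hx' : x ∈ Submonoid.closure (S ∪ χ '' {γ | γ ∈ Γ ∧ 0 ≤ γ}) := hx
    rw [Submonoid.closure_union, hX, Submonoid.mem_sup] at hx'
    obtain ⟨s, hs, t, ⟨γ, ⟨hγ, h0⟩, rfl⟩, rfl⟩ := hx'
    have hsF : s ∈ fixO F N G ∧ s ∈ A := by
      refine Submonoid.closure_induction (motive := fun s _ => s ∈ fixO F N G ∧ s ∈ A)
        ?_ ?_ ?_ hs
      · intro s hs
        exact ⟨hS s hs, Algebra.subset_adjoin (Or.inl hs)⟩
      · exact ⟨one_mem _, one_mem _⟩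
      · intro a b _ _ ha hb
        exact ⟨mul_mem ha.1 hb.1, mul_mem ha.2 hb.2⟩
    obtain ⟨n, rfl, hn⟩ := (mem_fixO F N G s).1 hsF.1
    refine ⟨n * h.X hγ, rfl, ?_⟩
    rw [avg_mul hn]
    refine A.mul_mem hsF.2 ?_
    rcases h.avg_X hE hG hγ with h1 | ⟨h1, h2⟩
    · rw [h1]
      exact A.zero_mem
    · rw [h2]
      exact Algebra.subset_adjoin (Or.inr ⟨γ, ⟨h1, h0⟩, rfl⟩)
  | zero => exact ⟨0, rfl, by rw [avg_zero]; exact A.zero_mem⟩
  | add x y _ _ hx hy =>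
    obtain ⟨n, rfl, h1⟩ := hx
    obtain ⟨m, rfl, h2⟩ := hy
    exact ⟨n + m, rfl, by rw [avg_add]; exact A.add_mem h1 h2⟩
  | smul c x _ hx =>
    obtain ⟨n, rfl, h1⟩ := hx
    have hkF : algebraMap k Ω c ∈ F := F.algebraMap_mem c
    refine ⟨algebraMap F N ⟨algebraMap k Ω c, hkF⟩ * n, ?_, ?_⟩
    · rw [Algebra.smul_def]
      rfl
    · rw [avg_mul fun σ _ => σ.commutes _]
      exact A.mul_mem (A.algebraMap_mem c) h1

/-- The ring of invariants. -/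
noncomputable def RF (R : Subalgebra k Ω) (N : IntermediateField F Ω) (G : Subgroup (N ≃ₐ[F] N)) :
    Subalgebra k Ω := R ⊓ (fixO F N G).toSubalgebra

theorem mem_RF {f : Ω} : f ∈ RF R N G ↔ f ∈ R ∧ f ∈ fixO F N G := Iff.rfl

/-- The ring of invariants is generated by finitely many elements and the invariant monomials. -/
theorem RF_fgen [FiniteDimensional F N] (h : ID v w Γ χ R N G) (hfg : Γ.FG)
    (hE : Eig (k := k) Γ χ G) (hG : (Nat.card G : k) ≠ 0)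
    (hgen : ∃ S : Finset Ω, R = locv v (Algebra.adjoin k
      ((S : Set Ω) ∪ χ '' {γ | γ ∈ Γ ∧ 0 ≤ γ}))) :
    ∃ S : Finset Ω, RF R N G = locv v (Algebra.adjoin k
      ((S : Set Ω) ∪ χ '' {γ | γ ∈ h.ΓF ∧ 0 ≤ γ})) := by
  classical
  obtain ⟨S₀, hS₀⟩ := hgen
  have hS₀R : ∀ f ∈ S₀, f ∈ R := fun f hf => by
    rw [hS₀]
    exact le_locv _ (Algebra.subset_adjoin (Or.inl hf))
  choose m g γ hg hsum using fun f : S₀ => h.coord hfg hE hG (hS₀R f f.2)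
  let S : Finset Ω := S₀.attach.biUnion fun f => Finset.univ.image (g f)
  have hSmem : ∀ (f : S₀) (i : Fin (m f)), g f i ∈ S := fun f i =>
    Finset.mem_biUnion.2 ⟨f, Finset.mem_attach _ _, Finset.mem_image_of_mem _ (Finset.mem_univ _)⟩
  have hSR : ∀ s ∈ S, s ∈ R ∧ s ∈ fixO F N G := by
    intro s hs
    obtain ⟨f, -, hs⟩ := Finset.mem_biUnion.1 hs
    obtain ⟨i, -, rfl⟩ := Finset.mem_image.1 hs
    exact ⟨(hg f i).1, (hg f i).2.1⟩
  refine ⟨S, ?_⟩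
  set A := Algebra.adjoin k ((S : Set Ω) ∪ χ '' {γ | γ ∈ Γ ∧ 0 ≤ γ}) with hA
  set A' := Algebra.adjoin k ((S : Set Ω) ∪ χ '' {γ | γ ∈ h.ΓF ∧ 0 ≤ γ}) with hA'
  have hAR : A ≤ R := by
    refine Algebra.adjoin_le ?_
    rintro f (hf | ⟨δ, ⟨hδ, h0⟩, rfl⟩)
    · exact (hSR f hf).1
    · exact h.χ_mem δ hδ h0
  have hRA : R ≤ locv v A := by
    rw [hS₀]
    refine locv_adjoin_le ?_
    rintro f (hf | ⟨δ, ⟨hδ, h0⟩, rfl⟩)
    · have hfe := hsum ⟨f, hf⟩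
      change f = _ at hfe
      rw [hfe]
      refine le_locv _ (A.sum_mem fun i _ => A.mul_mem ?_ ?_)
      · exact Algebra.subset_adjoin (Or.inl (hSmem _ i))
      · exact Algebra.subset_adjoin (Or.inr ⟨_, ⟨(hg _ i).2.2.1, (hg _ i).2.2.2⟩, rfl⟩)
    · exact le_locv _ (Algebra.subset_adjoin (Or.inr ⟨δ, ⟨hδ, h0⟩, rfl⟩))
  have hA'RF : A' ≤ RF R N G := by
    refine Algebra.adjoin_le ?_
    rintro f (hf | ⟨δ, ⟨hδ, h0⟩, rfl⟩)
    · exact hSR f hf
    · exact ⟨h.χ_mem δ hδ.1 h0, hδ.2⟩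
  apply le_antisymm
  · rintro x ⟨hx, hxF⟩
    obtain ⟨a, ha, b, hb, hb0, hvb, hxab⟩ := hRA hx
    obtain ⟨n, rfl, hn⟩ := (mem_fixO F N G x).1 hxF
    obtain ⟨a', ha', ha1⟩ := h.avg_adjoin hE hG S (fun s hs => (hSR s hs).2) ha
    obtain ⟨b', hb', hb1⟩ := h.avg_adjoin hE hG S (fun s hs => (hSR s hs).2) hb
    have hbR : (b' : Ω) ∈ R := by rw [hb']; exact hAR hb
    have h1 : n * b' = a' := by
      apply Subtype.ext
      rw [MulMemClass.coe_mul, ha', hb', hxab]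
      exact div_mul_cancel₀ _ hb0
    have h2 : (n : Ω) * avg G b' = avg G a' := by rw [← avg_mul hn, h1]
    have h3 := h.avg_cong hG (h.wR _ hbR)
    have h4 := h.pos (R.sub_mem (h.avg_mem hbR) hbR) h3
    rw [hb'] at h4
    have h5 := val_add_vpos (v := v) hb0 hvb h4
    rw [add_sub_cancel] at h5
    exact ⟨avg G a', ha1, avg G b', hb1, h5.1, h5.2, by
      rw [← h2, mul_div_cancel_right₀ _ h5.1]⟩
  · refine locv_le hA'RF ?_
    rintro f ⟨hf, hfF⟩ h0 hv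
    exact ⟨h.loc f hf h0 hv, (fixO F N G).inv_mem hfF⟩

/-- Every invariant is a quotient of invariants in the ring. -/
theorem RF_frac [FiniteDimensional F N] (h : ID v w Γ χ R N G) (hE : Eig (k := k) Γ χ G)
    (hG : (Nat.card G : k) ≠ 0) : FracIs (RF R N G) (fixO F N G) := by
  refine ⟨fun f hf => hf.2, fun x hx => ?_⟩
  obtain ⟨n, rfl, hn⟩ := (mem_fixO F N G x).1 hx
  obtain ⟨a, ha, b, hb, hb0, hab⟩ := h.frac n n.2
  have hwb := h.wval b hb hb0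
  have hw0 := h.wR b hb hb0
  have hχ0 := h.mon.ne _ hwb
  have hbw := h.wdiv b hb hb0
  set δ : 𝕂 := (Nat.card G : 𝕂) * w b with hδ
  have hδF : δ ∈ h.ΓF := h.card_mem hE hwb
  have hcard : (1 : 𝕂) ≤ (Nat.card G : 𝕂) := by
    exact_mod_cast Nat.card_pos (α := G)
  have hδ1 : w b ≤ δ := by
    rw [hδ]
    exact le_mul_of_one_le_left hw0 hcard
  have hδ2 : χ (δ - w b) ∈ R := h.χ_mem _ (Γ.sub_mem hδF.1 hwb) (by linarith)
  let b' : N := ⟨b / χ (w b), h.le _ hbw⟩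
  have hb'0 : (b' : Ω) ≠ 0 := div_ne_zero hb0 hχ0
  have hb'w : w (b' : Ω) = 0 := by
    show w (b / χ (w b)) = 0
    rw [w.map_div hb0 hχ0, h.wχ _ hwb, sub_self]
  have h3 := h.avg_cong hG (b := b') (fun _ => by rw [hb'w])
  have h5 := val_add_vpos (v := w) hb'0 hb'w h3
  rw [add_sub_cancel] at h5
  have h6 : n * (b' * h.X hδF.1) = ⟨a * χ (δ - w b), h.le _ (R.mul_mem ha hδ2)⟩ := by
    apply Subtype.ext
    show (n : Ω) * (b / χ (w b) * χ δ) = a * χ (δ - w b)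
    rw [hab, h.mon.sub hδF.1 hwb]
    field_simp
  have h7 : avg G (b' * h.X hδF.1) = χ δ * avg G b' := by
    rw [mul_comm, avg_mul (mem_fixO_iff.1 (show ((h.X hδF.1 : N) : Ω) ∈ fixO F N G from hδF.2)),
      coe_X]
  have h8 : (n : Ω) * (χ δ * avg G b') =
      avg G (⟨a * χ (δ - w b), h.le _ (R.mul_mem ha hδ2)⟩ : N) := by
    rw [← h7, ← avg_mul hn, h6]
  have hχδ := h.mon.ne _ hδF.1
  refine ⟨_, ⟨h.avg_mem (b := (⟨a * χ (δ - w b), h.le _ (R.mul_mem ha hδ2)⟩ : N))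
    (R.mul_mem ha hδ2), avg_mem_fixO _⟩, χ δ * avg G b',
    ⟨R.mul_mem (h.χ_mem _ hδF.1 (hw0.trans hδ1)) (h.avg_mem (b := b') hbw),
      mul_mem hδF.2 (avg_mem_fixO _)⟩, mul_ne_zero hχδ h5.1, ?_⟩
  rw [← h8, mul_div_cancel_right₀ _ (mul_ne_zero hχδ h5.1)]

end ID

/-- **Row 3.4a**, for eigenvectors. -/
theorem tame_eig [IsAlgClosed k] {v w : OVal 𝕂 Ω} {r D : ℕ} (B : LF k v r D)
    {N : IntermediateField F Ω} {G : Subgroup (N ≃ₐ[F] N)} [FiniteDimensional F N]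
    (h : ID v w B.Γ B.χ B.R N G) (hE : ID.Eig (k := k) B.Γ B.χ G) (hG : (Nat.card G : k) ≠ 0)
    (hy : ∀ i, w (B.y i) = 0) :
    ∃ C : LF k v r D, C.R = ID.RF B.R N G ∧ C.Γ = h.ΓF ∧ C.χ = B.χ ∧
      FracIs C.R (fixO F N G) := by
  classical
  let y : Fin D → N := fun i => ⟨B.y i, h.le _ (B.y_mem i)⟩
  have hycong : ∀ i, VPos w (ID.avg G (y i) - B.y i) := fun i =>
    h.avg_cong hG (b := y i) (h.wR _ (B.y_mem i))
  have hyR : ∀ i, ID.avg G (y i) ∈ B.R := fun i => h.avg_mem (b := y i) (B.y_mem i)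
  have hy0 : ∀ i, ID.avg G (y i) ≠ 0 := by
    intro i
    have := val_add_vpos (v := w) (B.y_ne i) (hy i) (hycong i)
    rw [add_sub_cancel] at this
    exact this.1
  have hyv : ∀ i, 0 < v (ID.avg G (y i)) := by
    intro i
    have h1 := h.pos (B.R.sub_mem (hyR i) (B.y_mem i)) (hycong i)
    have h2 : VPos v (ID.avg G (y i)) := by
      have := VPos.add (f := B.y i) (fun _ => B.y_pos i) h1
      rwa [add_sub_cancel] at this
    exact h2 (hy0 i)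
  obtain ⟨X, hX1, hX2, hX3⟩ := B.rk
  have hc0 : (Nat.card G : ℚ) ≠ 0 := by
    exact_mod_cast (Nat.card_pos (α := G)).ne'
  have hcX : ∀ i, (Nat.card G : ℚ) • X i = (Nat.card G : 𝕂) * X i := by
    intro i
    rw [Rat.smul_def]
    push_cast
    rfl
  refine ⟨{ Γ := h.ΓF
            fg := ?_
            rk := ⟨fun i => (Nat.card G : ℚ) • X i, ?_, ?_, ?_⟩
            χ := B.χ
            χ_ne := fun γ hγ => B.χ_ne γ hγ.1
            χ_add := fun γ hγ δ hδ => B.χ_add γ hγ.1 δ hδ.1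
            χ_val := fun γ hγ => B.χ_val γ hγ.1
            y := fun i => ID.avg G (y i)
            y_ne := hy0
            y_pos := hyv
            R := ID.RF B.R N G
            nonneg := fun f hf => B.nonneg f hf.1
            loc := fun f hf h0 hv => ⟨B.loc f hf.1 h0 hv, (fixO F N G).inv_mem hf.2⟩
            χ_mem := fun γ hγ h0 => ⟨B.χ_mem γ hγ.1 h0, hγ.2⟩
            y_mem := fun i => ⟨hyR i, ID.avg_mem_fixO _⟩
            fgen := h.RF_fgen B.fg hE hG B.fgen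
            gen := ?_ }, rfl, rfl, rfl, h.RF_frac hE hG⟩
  · exact fg_of_mul B.fg (e := 1) one_pos fun γ hγ => by
      rw [Nat.cast_one, one_mul]; exact hγ.1
  · exact hX1.units_smul (fun _ => Units.mk0 _ hc0)
  · intro i
    show (Nat.card G : ℚ) • X i ∈ h.ΓF
    rw [hcX]
    exact h.card_mem hE (hX2 i)
  · intro γ hγ
    have h1 := hX3 γ hγ.1
    refine (Submodule.span_le.2 ?_) h1
    rintro _ ⟨i, rfl⟩
    have h2 : X i = (Nat.card G : ℚ)⁻¹ • ((Nat.card G : ℚ) • X i) := by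
      rw [smul_smul, inv_mul_cancel₀ hc0, one_smul]
    rw [h2]
    exact Submodule.smul_mem _ _ (Submodule.subset_span ⟨i, rfl⟩)
  · rintro f ⟨hf, hfF⟩ hv
    obtain ⟨γ, hγ, a, ha, h0, b, hb, hfe⟩ := B.gen f hf hv
    let b' : Fin D → N := fun i => ⟨b i, h.le _ (hb i)⟩
    have hbc : ∀ i, VPos w (ID.avg G (b' i) - b i) := fun i =>
      h.avg_cong hG (b := b' i) (h.wR _ (hb i))
    have hbR : ∀ i, ID.avg G (b' i) ∈ B.R := fun i => h.avg_mem (b := b' i) (hb i)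
    have hz : VPos w (f - ∑ i, ID.avg G (y i) * ID.avg G (b' i)) := by
      have e : f - ∑ i, ID.avg G (y i) * ID.avg G (b' i) = B.χ γ * a +
          ∑ i, (B.y i * b i - ID.avg G (y i) * ID.avg G (b' i)) := by
        rw [Finset.sum_sub_distrib, hfe]
        ring
      rw [e]
      refine VPos.add ?_ (ALLZ_vpos_sum _ _ fun i _ => ?_)
      · rcases h0 with h0 | h0
        · refine VPos.mul (fun _ => ?_) (h.wR a ha)
          rw [h.wχ γ hγ]
          exact h0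
        · rw [h0, mul_zero]
          exact TAO.VPos.zero
      · have e2 : B.y i * b i - ID.avg G (y i) * ID.avg G (b' i) =
            -(B.y i * (ID.avg G (b' i) - b i) +
              (ID.avg G (y i) - B.y i) * ID.avg G (b' i)) := by ring
        rw [e2]
        exact ((VPos.mul' (h.wR _ (B.y_mem i)) (hbc i)).add
          (VPos.mul (hycong i) (h.wR _ (hbR i)))).neg
    set z := f - ∑ i, ID.avg G (y i) * ID.avg G (b' i) with hzdef
    have hzR : z ∈ ID.RF B.R N G := by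
      refine (ID.RF B.R N G).sub_mem ⟨hf, hfF⟩ ((ID.RF B.R N G).sum_mem fun i _ => ?_)
      exact (ID.RF B.R N G).mul_mem ⟨hyR i, ID.avg_mem_fixO _⟩ ⟨hbR i, ID.avg_mem_fixO _⟩
    have hfz : f = z + ∑ i, ID.avg G (y i) * ID.avg G (b' i) := by
      rw [hzdef]; ring
    by_cases hz0 : z = 0
    · refine ⟨0, h.ΓF.zero_mem, 0, (ID.RF B.R N G).zero_mem, Or.inr rfl,
        fun i => ID.avg G (b' i), fun i => ⟨hbR i, ID.avg_mem_fixO _⟩, ?_⟩
      rw [mul_zero, zero_add, hfz, hz0, zero_add]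
    · have h1 := h.val_fix hE hzR.2 hz0
      have h2 := h.wdiv z hzR.1 hz0
      have hχ0 := h.mon.ne _ h1.1
      refine ⟨w z, h1, z / B.χ (w z), ⟨h2, (fixO F N G).div_mem hzR.2 h1.2⟩, Or.inl (hz hz0),
        fun i => ID.avg G (b' i), fun i => ⟨hbR i, ID.avg_mem_fixO _⟩, ?_⟩
      rw [mul_div_cancel₀ _ hχ0, ← hfz]

/-- **Row 3.4a** from the data `ID`. -/
theorem tame_id [IsAlgClosed k] {v w : OVal 𝕂 Ω} {r D : ℕ} (B : LF k v r D)
    {N : IntermediateField F Ω} {G : Subgroup (N ≃ₐ[F] N)} [FiniteDimensional F N]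
    (h : ID v w B.Γ B.χ B.R N G) (hG : (Nat.card G : k) ≠ 0) (hy : ∀ i, w (B.y i) = 0) :
    ∃ C : LF k v r D, (∀ f, f ∈ C.R ↔ f ∈ B.R ∧ f ∈ fixO F N G) ∧
      FracIs C.R (fixO F N G) ∧ (∀ γ ∈ C.Γ, γ ∈ B.Γ ∧ B.Un (C.χ γ / B.χ γ)) ∧
      ∀ γ ∈ B.Γ, (Nat.card G : 𝕂) * γ ∈ C.Γ := by
  obtain ⟨χ', h', hE, hu⟩ := h.exists_eig B.fg hG
  obtain ⟨B', e1, e2, e3, e4⟩ := B.chChi χ' h'.mon.ne h'.mon.add (by
    intro γ hγ
    exact ⟨(hu γ hγ).2.1, div_ne_zero (h.mon.ne γ hγ) (h'.mon.ne γ hγ), (hu γ hγ).2.2⟩)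
  have h'' : ID v w B'.Γ B'.χ B'.R N G := by rw [e1, e2, e3]; exact h'
  have hE' : ID.Eig (k := k) B'.Γ B'.χ G := by rw [e2, e3]; exact hE
  obtain ⟨C, c1, c2, c3, c4⟩ := tame_eig B' h'' hE' hG (by rw [e4]; exact hy)
  refine ⟨C, fun f => by rw [c1, e1]; exact Iff.rfl, c4, ?_, ?_⟩
  · intro γ hγ
    rw [c2] at hγ
    have hγ' : γ ∈ B.Γ := by rw [← e2]; exact hγ.1
    refine ⟨hγ', ?_⟩
    rw [c3, e3]
    obtain ⟨h1, h2, h3⟩ := hu γ hγ'
    refine ⟨h1, div_ne_zero (h'.mon.ne γ hγ') (h.mon.ne γ hγ'), ?_⟩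
    rw [v.map_div (h'.mon.ne γ hγ') (h.mon.ne γ hγ'), h'.mon.val γ hγ', h.mon.val γ hγ',
      sub_self]
  · intro γ hγ
    rw [c2]
    exact h''.card_mem hE' (by rw [e2]; exact hγ)

end Pool.Agent.TGL
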