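import Pool.Agent.Lib.TGL_h36.InvC
import Pool.Agent.Lib.TGL_h44.LFT
import Pool.Agent.Lib.TGL.Icl
import Pool.Agent.Lib.TGL.Frac
import Pool.Agent.Lib.ALLG.Cont

/-!
# TANK G, limit level, row 3.4a, part D: tame quotients of limit frames
-/

set_option autoImplicit false

namespace Pool.Agent.TGL

open Pool.Agent.TAO (OVal VPos val_add_vpos Ctx0)
open Pool.Agent.ALLO (locv icl ICl decP)
open Pool.Agent.LU1 (FracIs fixO mem_fixO)
open Pool.Agent.ALLZO (NRing)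
open Pool.Agent.TGL44

universe u w

variable {k Ω : Type u} [Field k] [Field Ω] [Algebra k Ω]
  {𝕂 : Type w} [Field 𝕂] [LinearOrder 𝕂] [IsStrictOrderedRing 𝕂] {v : OVal 𝕂 Ω} {r D n : ℕ}
  {F : IntermediateField k Ω}

theorem LF.Hi.mem {B : LF k v r D} {f : Ω} (h : B.Hi f) : f ∈ B.R := by
  obtain ⟨γ, hγ, a, ha, h0, rfl⟩ := h
  rcases h0 with h0 | h0
  · exact B.R.mul_mem (B.χ_mem γ hγ h0.le) ha
  · rw [h0, mul_zero]
    exact B.R.zero_mem

theorem LF.Hi.vpos {B : LF k v r D} {f : Ω} (h : B.Hi f) : VPos v f := by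
  obtain ⟨γ, hγ, a, ha, h0, rfl⟩ := h
  rcases h0 with h0 | h0
  · refine VPos.mul (fun _ => ?_) (B.nonneg a ha)
    rw [B.χ_val γ hγ]
    exact h0
  · rw [h0, mul_zero]
    exact TAO.VPos.zero

theorem LF.mon' (B : LF k v r D) : ALLh43.Mon v B.Γ B.χ := ⟨B.χ_ne, B.χ_add, B.χ_val⟩

/-- The quotients `σ χ / χ` are in the ring. -/
theorem LF.rat_mem (B : LF k v r D) {N : IntermediateField F Ω} (σ : N ≃ₐ[F] N)
    (_hle : ∀ f ∈ B.R, f ∈ N) (hnorm : ∀ f ∈ N, IsIntegral B.R f → f ∈ B.R)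
    (hM : ∀ γ ∈ B.Γ, ∃ e : ℕ, 0 < e ∧ ∃ m ∈ F, B.Un (m / B.χ (e * γ)))
    (hact : ∀ a : N, (a : Ω) ∈ B.R → B.Hi (((σ a : N) : Ω) - a)) {γ : 𝕂} (hγ : γ ∈ B.Γ) {x : N}
    (hx : (x : Ω) = B.χ γ) : ((σ x : N) : Ω) / B.χ γ ∈ B.R := by
  obtain ⟨e, he, m, hm, hu⟩ := hM γ hγ
  have hχe : B.χ ((e : 𝕂) * γ) = B.χ γ ^ e := B.mon'.nat_mul hγ e
  rw [hχe] at hu
  have hχ0 := B.χ_ne γ hγ
  have hx0 : x ≠ 0 := by
    rintro rfl
    exact hχ0 (by rw [← hx]; rfl)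
  have hσx0 : ((σ x : N) : Ω) ≠ 0 := fun h0 => hx0 ((map_eq_zero_iff σ σ.injective).1
    (Subtype.ext h0))
  let m' : N := algebraMap F N ⟨m, hm⟩
  let u : N := m' / x ^ e
  have hu' : (u : Ω) = m / B.χ γ ^ e := by
    show m / (x : Ω) ^ e = _
    rw [hx]
  have hσu : ((σ u : N) : Ω) = m / ((σ x : N) : Ω) ^ e := by
    have h1 : σ u = m' / (σ x) ^ e := by
      show σ (m' / x ^ e) = _
      rw [map_div₀, map_pow]
      congr 1
      exact σ.commutes _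
    rw [h1]
    rfl
  have huR : (u : Ω) ∈ B.R := by rw [hu']; exact hu.1
  have hu0 : (u : Ω) ≠ 0 := by rw [hu']; exact hu.2.1
  have huv : v (u : Ω) = 0 := by rw [hu']; exact hu.2.2
  have h1 := hact u huR
  have h2 := val_add_vpos (v := v) hu0 huv h1.vpos
  rw [add_sub_cancel] at h2
  have h3 : ((σ u : N) : Ω) ∈ B.R := by
    have := B.R.add_mem h1.mem huR
    rwa [sub_add_cancel] at this
  have h4 := B.loc _ h3 h2.1 h2.2
  have hm0 : m ≠ 0 := by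
    rintro rfl
    rw [zero_div] at hu
    exact hu.2.1 rfl
  have h5 : (((σ x : N) : Ω) / B.χ γ) ^ e = (u : Ω) * ((σ u : N) : Ω)⁻¹ := by
    rw [hu', hσu, div_pow, inv_div]
    field_simp
  refine hnorm _ (N.div_mem (σ x).2 (hx ▸ x.2)) ?_
  refine IsIntegral.of_pow he ?_
  rw [h5]
  exact int_of_mem (B.R.mul_mem huR h4)

/-- **Row 3.4a** when `Ω` is algebraic over the frame and `0 < r`. -/
theorem tame_alg [IsAlgClosed k] (h : Ctx0 k v n) (hr : 0 < r) (hn : n = r + D)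
    (B : LF k v r D) (halg : ∀ g : Ω, IsAlgebraic B.R g) {N : IntermediateField F Ω}
    [FiniteDimensional F N] (G : Subgroup (N ≃ₐ[F] N)) (hB : FracIs B.R (N.restrictScalars k))
    (hnorm : ∀ f ∈ N, IsIntegral B.R f → f ∈ B.R) (hG : (Nat.card G : k) ≠ 0)
    (hM : ∀ γ ∈ B.Γ, ∃ e : ℕ, 0 < e ∧ ∃ m ∈ F, B.Un (m / B.χ (e * γ)))
    (hact : ∀ σ ∈ G, ∀ a : N, (a : Ω) ∈ B.R → B.Hi (((σ a : N) : Ω) - a)) :
    ∃ C : LF k v r D, (∀ f, f ∈ C.R ↔ f ∈ B.R ∧ f ∈ fixO F N G) ∧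
      FracIs C.R (fixO F N G) ∧ (∀ γ ∈ C.Γ, γ ∈ B.Γ ∧ B.Un (C.χ γ / B.χ γ)) ∧
      ∀ γ ∈ B.Γ, (Nat.card G : 𝕂) * γ ∈ C.Γ := by
  have _ : Infinite k := inferInstance
  obtain ⟨w, hw⟩ := ALLG.exists_isCont h hr hn (B.toFR hr halg) hB
  have hid : ID v w B.Γ B.χ B.R N G :=
    { mon := B.mon'
      nonneg := B.nonneg
      loc := B.loc
      χ_mem := B.χ_mem
      le := fun f hf => hB.1 f hf
      frac := fun f hf => hB.2 f hf
      wχ := fun γ hγ => hw.χ hγ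
      wR := fun f hf => hw.ge h hr hn hf
      wval := fun f hf h0 => hw.Γ h hr hn hB (hB.1 f hf) h0
      wdiv := fun f hf h0 => hw.div_mem h hr hn hf h0
      stab := fun σ hσ a ha => by
        have := B.R.add_mem (hact σ hσ a ha).mem ha
        rwa [sub_add_cancel] at this
      triv := fun σ hσ a ha => by
        obtain ⟨γ, hγ, b, hb, h0, e⟩ := hact σ hσ a ha
        rw [e]
        rcases h0 with h0 | h0
        · refine VPos.mul (fun _ => ?_) (hw.ge h hr hn hb)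
          have h1 : w (B.χ γ) = γ := hw.χ hγ
          rw [h1]
          exact h0
        · rw [h0, mul_zero]
          exact TAO.VPos.zero
      rat := fun σ hσ γ hγ x hx => B.rat_mem σ (fun f hf => hB.1 f hf) hnorm hM
        (hact σ hσ) hγ hx }
  exact tame_id B hid hG fun i => hw.y h hr hn i

/-- The frame `lfDn` and units. -/
theorem un_dn {W : IntermediateField k Ω} (B : LF k v r D) (hBW : ∀ f ∈ B.R, f ∈ W) (a : W) :
    (lfDn B hBW).Un a ↔ B.Un (a : Ω) :=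
  ⟨fun h => ⟨h.1, TGL44.coe_ne.2 h.2.1, h.2.2⟩, fun h => ⟨h.1, TGL44.coe_ne.1 h.2.1, h.2.2⟩⟩

/-- **Row 3.4a** when `0 < r`. -/
theorem tame_pos [IsAlgClosed k] (h : Ctx0 k v n) (hr : 0 < r)
    (B : LF k v r D) {N : IntermediateField F Ω} [FiniteDimensional F N]
    (htr : Algebra.trdeg k (N.restrictScalars k : IntermediateField k Ω) = ((r + D : ℕ)))
    (G : Subgroup (N ≃ₐ[F] N)) (hB : FracIs B.R (N.restrictScalars k))
    (hnorm : ∀ f ∈ N, IsIntegral B.R f → f ∈ B.R) (hG : (Nat.card G : k) ≠ 0)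
    (hM : ∀ γ ∈ B.Γ, ∃ e : ℕ, 0 < e ∧ ∃ m ∈ F, B.Un (m / B.χ (e * γ)))
    (hact : ∀ σ ∈ G, ∀ a : N, (a : Ω) ∈ B.R → B.Hi (((σ a : N) : Ω) - a)) :
    ∃ C : LF k v r D, (∀ f, f ∈ C.R ↔ f ∈ B.R ∧ f ∈ fixO F N G) ∧
      FracIs C.R (fixO F N G) ∧ (∀ γ ∈ C.Γ, γ ∈ B.Γ ∧ B.Un (C.χ γ / B.χ γ)) ∧
      ∀ γ ∈ B.Γ, (Nat.card G : 𝕂) * γ ∈ C.Γ := by
  set W := Wc (N.restrictScalars k : IntermediateField k Ω) with hWdef
  have hNW : ∀ a ∈ N, a ∈ W := fun a ha => le_Wc (K := N.restrictScalars k) ha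
  have hFW : F ≤ W := le_of_N hNW
  have hBW : ∀ f ∈ B.R, f ∈ W := fun f hf => hNW f (hB.1 f hf)
  have _ : FiniteDimensional (F.comap W.val) (dnN W N) := finiteDimensional_dnN hNW
  have hctx : Ctx0 k (rv v W) (r + D) := ctx_Wc h htr
  have halg : ∀ g : W, IsAlgebraic (lfDn B hBW).R g := fun g => alg_dn hB g
  have hNr : (dnN W N).restrictScalars k = (N.restrictScalars k).comap W.val := by
    ext a
    exact Iff.rfl
  have hfixW : fixO F N G ≤ W := by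
    intro a ha
    obtain ⟨b, rfl, -⟩ := (mem_fixO F N G a).1 ha
    exact hNW _ b.2
  have hcard : Nat.card (G.map (autW hNW).toMonoidHom) = Nat.card G :=
    Nat.card_congr (G.equivMapOfInjective _ (autW hNW).injective).symm.toEquiv
  obtain ⟨C, c1, c2, c3, c4⟩ := tame_alg hctx hr rfl (lfDn B hBW) halg
    (G.map (autW hNW).toMonoidHom) (by rw [hNr]; exact frac_dn (fun a ha => hNW a ha) hB)
    (by
      intro f hf hi
      exact hnorm _ hf ((isIntegral_dn hBW).1 hi))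
    (by rw [hcard]; exact hG)
    (by
      intro γ hγ
      obtain ⟨e, he, m, hm, hu⟩ := hM γ hγ
      refine ⟨e, he, ⟨m, hFW hm⟩, hm, ?_⟩
      have h8 : (e : 𝕂) * γ ∈ B.Γ := by
        rw [← nsmul_eq_mul]; exact B.Γ.nsmul_mem hγ e
      rw [un_dn]
      have h9 : (((⟨m, hFW hm⟩ : W) / (lfDn B hBW).χ ((e : 𝕂) * γ) : W) : Ω) =
          m / B.χ ((e : 𝕂) * γ) := by
        rw [← χW_coe B hBW h8]
        rfl
      rw [h9]
      exact hu)
    (by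
      rintro _ ⟨σ, hσ, rfl⟩ a ha
      obtain ⟨γ, hγ, b, hb, h0, e⟩ := hact σ hσ ((eN hNW).symm a) ha
      refine ⟨γ, hγ, ⟨b, hBW b hb⟩, hb, h0.imp id fun h1 => Subtype.ext h1, ?_⟩
      apply Subtype.ext
      have h1 : (((lfDn B hBW).χ γ * (⟨b, hBW b hb⟩ : W) : W) : Ω) = B.χ γ * b := by
        rw [← χW_coe B hBW hγ]
        rfl
      rw [h1, ← e]
      rfl)
  refine ⟨lfUp C, ?_, ?_, ?_, ?_⟩
  · intro f
    change f ∈ up W C.R ↔ _
    rw [mem_up]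
    constructor
    · rintro ⟨b, hb, rfl⟩
      have h1 := (c1 b).1 hb
      rw [fixO_dn hNW] at h1
      exact h1
    · rintro ⟨h1, h2⟩
      refine ⟨⟨f, hBW f h1⟩, (c1 _).2 ⟨h1, ?_⟩, rfl⟩
      rw [fixO_dn hNW]
      exact h2
  · refine frac_up hfixW ?_
    rw [← fixO_dn hNW]
    exact c2
  · intro γ hγ
    obtain ⟨h1, h2⟩ := c3 γ hγ
    refine ⟨h1, ?_⟩
    rw [un_dn] at h2
    have h3 : ((C.χ γ / (lfDn B hBW).χ γ : W) : Ω) = (lfUp C).χ γ / B.χ γ := by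
      rw [← χW_coe B hBW h1]
      rfl
    rw [h3] at h2
    exact h2
  · intro γ hγ
    have := c4 γ hγ
    rw [hcard] at this
    exact this

/-- **Row 3.4a** for any group acting trivially modulo the monomials, of order prime to `p`. -/
theorem tame_gen [IsAlgClosed k] (h : Ctx0 k v n)
    (B : LF k v r D) {N : IntermediateField F Ω} [FiniteDimensional F N]
    (htr : Algebra.trdeg k (N.restrictScalars k : IntermediateField k Ω) = ((r + D : ℕ)))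
    (G : Subgroup (N ≃ₐ[F] N)) (hB : FracIs B.R (N.restrictScalars k))
    (hnorm : ∀ f ∈ N, IsIntegral B.R f → f ∈ B.R) (hG : (Nat.card G : k) ≠ 0)
    (hM : ∀ γ ∈ B.Γ, ∃ e : ℕ, 0 < e ∧ ∃ m ∈ F, B.Un (m / B.χ (e * γ)))
    (hact : ∀ σ ∈ G, ∀ a : N, (a : Ω) ∈ B.R → B.Hi (((σ a : N) : Ω) - a)) :
    ∃ C : LF k v r D, (∀ f, f ∈ C.R ↔ f ∈ B.R ∧ f ∈ fixO F N G) ∧
      FracIs C.R (fixO F N G) ∧ (∀ γ ∈ C.Γ, γ ∈ B.Γ ∧ B.Un (C.χ γ / B.χ γ)) ∧
      ∀ γ ∈ B.Γ, (Nat.card G : 𝕂) * γ ∈ C.Γ := by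
  rcases Nat.eq_zero_or_pos r with hr | hr
  · subst hr
    have hΓ : ∀ γ ∈ B.Γ, γ = 0 := by
      intro γ hγ
      obtain ⟨X, -, -, hX⟩ := B.rk
      have h1 := hX γ hγ
      rw [Set.range_eq_empty, Submodule.span_empty] at h1
      exact (Submodule.mem_bot ℚ).1 h1
    have hfix : ∀ σ ∈ G, ∀ a : N, (a : Ω) ∈ B.R → σ a = a := by
      intro σ hσ a ha
      obtain ⟨γ, hγ, b, hb, h0, e⟩ := hact σ hσ a ha
      rcases h0 with h0 | h0
      · rw [hΓ γ hγ] at h0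
        exact absurd h0 (lt_irrefl _)
      · rw [h0, mul_zero] at e
        exact Subtype.ext (sub_eq_zero.1 e)
    have hall : ∀ a ∈ N, a ∈ fixO F N G := by
      intro x hx
      obtain ⟨a, ha, b, hb, hb0, e⟩ := hB.2 x hx
      have h1 : ∀ a ∈ B.R, a ∈ fixO F N G := fun a ha =>
        (mem_fixO F N G a).2 ⟨⟨a, hB.1 a ha⟩, rfl, fun σ hσ => hfix σ hσ _ ha⟩
      rw [e]
      exact div_mem (h1 a ha) (h1 b hb)
    refine ⟨B, fun f => ⟨fun hf => ⟨hf, hall f (hB.1 f hf)⟩, fun hf => hf.1⟩,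
      ⟨fun f hf => hall f (hB.1 f hf), fun g hg => ?_⟩, fun γ hγ => ⟨hγ, ?_⟩, fun γ hγ => ?_⟩
    · obtain ⟨b, rfl, -⟩ := (mem_fixO F N G g).1 hg
      exact hB.2 _ b.2
    · rw [div_self (B.χ_ne γ hγ)]
      exact ⟨B.R.one_mem, one_ne_zero, v.map_one⟩
    · rw [← nsmul_eq_mul]
      exact B.Γ.nsmul_mem hγ _
  · exact tame_pos h hr B htr G hB hnorm hG hM hact

/-- ROW 3.4a: the statement of `tgl_rows_h23.lean`. -/
theorem tame_quotient {p : ℕ} [Fact p.Prime] [CharP Ω p] [IsAlgClosed k] [IsAlgClosed Ω]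
    (h : Ctx0 k v n) {F : IntermediateField k Ω} {N : IntermediateField F Ω}
    [FiniteDimensional F N] [IsGalois F N] {R : Subalgebra k Ω} (hR : NRing v F R)
    (htr : Algebra.trdeg k F = ((r + D : ℕ))) (B : LF k v r D)
    (hB : B.R = ICl v R (N.restrictScalars k))
    (hcard : ¬ p ∣ Nat.card (decP v R F N))
    (hM : ∀ γ ∈ B.Γ, ∃ e : ℕ, 0 < e ∧ ∃ m ∈ F, B.Un (m / B.χ (e * γ)))
    (hact : ∀ σ ∈ decP v R F N, ∀ a : N, (a : Ω) ∈ B.R → B.Hi (((σ a : N) : Ω) - a)) :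
    ∃ C : LF k v r D, (∀ f, f ∈ C.R ↔ f ∈ B.R ∧ f ∈ fixO F N (decP v R F N)) ∧
      FracIs C.R (fixO F N (decP v R F N)) ∧ (∀ γ ∈ C.Γ, γ ∈ B.Γ ∧ B.Un (C.χ γ / B.χ γ)) ∧
      ∀ γ ∈ B.Γ, ∃ e : ℕ, 0 < e ∧ (e : 𝕂) * γ ∈ C.Γ := by
  have hFN : F ≤ N.restrictScalars k := fun a ha => N.algebraMap_mem ⟨a, ha⟩
  have halg : ∀ g ∈ (N.restrictScalars k : IntermediateField k Ω), IsAlgebraic F g := by
    intro g hg
    have h1 : IsAlgebraic F (⟨g, hg⟩ : N) := Algebra.IsAlgebraic.isAlgebraic _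
    exact h1.algHom N.val
  have hfrac : FracIs B.R (N.restrictScalars k) := by
    rw [hB]
    exact fracIs_ICl v hR.frac hFN halg
  have htr' : Algebra.trdeg k (N.restrictScalars k : IntermediateField k Ω) =
      ((r + D : ℕ)) := by
    let _ : Algebra F (N.restrictScalars k : IntermediateField k Ω) :=
      (IntermediateField.inclusion hFN).toRingHom.toAlgebra
    have _ : IsScalarTower F (N.restrictScalars k : IntermediateField k Ω) Ω :=
      IsScalarTower.of_algebraMap_eq fun _ => rfl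
    have _ : IsScalarTower k F (N.restrictScalars k : IntermediateField k Ω) :=
      IsScalarTower.of_algebraMap_eq fun _ => rfl
    have _ : Algebra.IsAlgebraic F (N.restrictScalars k : IntermediateField k Ω) := ⟨fun e =>
      (isAlgebraic_algebraMap_iff (R := F) (A := Ω)
        (algebraMap (N.restrictScalars k : IntermediateField k Ω) Ω).injective).1
        (halg e.1 e.2)⟩
    have h2 := trdeg_add_eq k F (A := (N.restrictScalars k : IntermediateField k Ω))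
    rw [_root_.trdeg_eq_zero (R := F) (A := (N.restrictScalars k : IntermediateField k Ω)),
      add_zero, htr] at h2
    exact h2.symm
  have hnorm : ∀ f ∈ N, IsIntegral B.R f → f ∈ B.R := by
    rw [hB]
    exact fun f hf hi => ICl_normal f hf hi
  have hG : (Nat.card (decP v R F N) : k) ≠ 0 := by
    intro h0
    apply hcard
    have h1 := congrArg (algebraMap k Ω) h0
    rw [map_natCast, _root_.map_zero] at h1
    exact (CharP.cast_eq_zero_iff Ω p _).1 h1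
  obtain ⟨C, h1, h2, h3, h4⟩ := tame_gen h B htr' _ hfrac hnorm hG hM hact
  exact ⟨C, h1, h2, h3, fun γ hγ => ⟨_, Nat.card_pos, h4 γ hγ⟩⟩

end Pool.Agent.TGL
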